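import Pool.Agent.H32.F14.Iface

set_option autoImplicit false
set_option linter.unusedSectionVars false
set_option linter.unusedVariables false

noncomputable section

open Classical

namespace Pool.Agent.H32.F14

section
variable {V D : Type} [Fintype V] [Fintype D]

theorem mem_darts (G : DG V D) (v : V) (d : D) : d ∈ G.darts v ↔ G.att d = v := by
  simp [DG.darts]

theorem mem_bdry (G : DG V D) (K : Finset V) (d : D) :
    d ∈ G.bdry K ↔ G.att d ∈ K ∧ G.att (G.inv d) ∉ K := by
  simp [DG.bdry]

theorem ones_congr (G : DG V D) (f g : D → Bool) (v : V) (h : ∀ d, G.att d = v → f d = g d) :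
    G.ones f v = G.ones g v := by
  unfold DG.ones
  congr 1
  apply Finset.filter_congr
  intro d hd
  rw [mem_darts] at hd
  rw [h d hd]

theorem okAt_congr (G : DG V D) (f g : D → Bool) (v : V) (h : ∀ d, G.att d = v → f d = g d)
    (hf : G.OkAt f v) : G.OkAt g v := by
  unfold DG.OkAt at *
  rwa [← ones_congr G f g v h]

theorem ones_add_not (G : DG V D) (f : D → Bool) (v : V) :
    G.ones f v + G.ones (fun d => !(f d)) v = G.deg v := by
  unfold DG.ones DG.deg
  have h := Finset.card_filter_add_card_filter_not (s := G.darts v) (fun d => f d = true)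
  rw [← h]
  congr 2
  apply Finset.filter_congr
  intro d _
  simp

theorem okAt_not (G : DG V D) (f : D → Bool) (v : V) (h : G.OkAt f v) :
    G.OkAt (fun d => !(f d)) v := by
  have h2 := ones_add_not G f v
  unfold DG.OkAt at *
  omega

/-- flipping a valid labelling -/
theorem validOn_not (G : DG V D) (K : Finset V) (f : D → Bool) (h : G.ValidOn K f) :
    G.ValidOn K (fun d => !(f d)) := by
  refine ⟨fun d hd => ?_, fun v hv => okAt_not G f v (h.2 v hv)⟩
  simp only
  rw [h.1 d hd]

theorem glue_aux (G : DG V D) (K : Finset V) (f g : D → Bool) (hf : G.ValidOn K f)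
    (hg : G.ValidOn Kᶜ g) (hb : ∀ b ∈ G.bdry K, f b = g b) : G.Solvable := by
  refine ⟨fun d => if G.att d ∈ K ∨ G.att (G.inv d) ∈ K then f d else g d, ?_, ?_⟩
  · intro d
    simp only [G.inv_inv]
    by_cases h1 : G.att d ∈ K
    · simp only [h1, or_true, true_or, if_true]
      exact hf.1 d h1
    · by_cases h2 : G.att (G.inv d) ∈ K
      · simp only [h2, or_true, true_or, if_true]
        have := hf.1 (G.inv d) h2
        rw [G.inv_inv] at this
        exact this.symm
      · simp only [h1, h2, or_self, if_false]
        exact hg.1 d (by simpa using h1)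
  · intro v
    by_cases hv : v ∈ K
    · apply okAt_congr G f _ v _ (hf.2 v hv)
      intro d hd
      have : G.att d ∈ K := by rw [hd]; exact hv
      simp [this]
    · apply okAt_congr G g _ v _ (hg.2 v (by simpa using hv))
      intro d hd
      have h1 : G.att d ∉ K := by rw [hd]; exact hv
      by_cases h2 : G.att (G.inv d) ∈ K
      · simp only [h1, h2, or_true, if_true]
        have hbd : G.inv d ∈ G.bdry K := by
          rw [mem_bdry]; refine ⟨h2, ?_⟩; rw [G.inv_inv]; exact h1
        have e1 := hb _ hbd
        have e2 := hf.1 (G.inv d) h2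
        rw [G.inv_inv] at e2
        have e3 := hg.1 d (by simpa using h1)
        rw [← e3, ← e1, e2]
      · simp [h1, h2]

theorem glue : StmtGlue := by
  intro V D _ _ G K f g hf hg hb
  exact glue_aux G K f g hf hg hb

/-- the gluing tool used by all reductions -/
theorem glue_set (G : DG V D) (hG : MinCex G) (K : Finset V) (f : D → Bool)
    (hf : G.ValidOn Kᶜ f) (ε : Bool) (FI : Finset D) (hFI : ∀ d ∈ FI, G.inv d ∈ FI)
    (hFK : ∀ d ∈ FI, G.att d ∈ K)
    (hok : ∀ v ∈ K, ((G.darts v).filter (fun d => d ∈ FI ∨ (d ∈ G.bdry K ∧ f d = ε))).card = 1 ∨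
      ((G.darts v).filter (fun d => d ∈ FI ∨ (d ∈ G.bdry K ∧ f d = ε))).card + 1 = G.deg v) :
    False := by
  apply hG.nosol
  -- the labelling on K
  let g : D → Bool := fun d => if G.att d ∈ K ∧ G.att (G.inv d) ∈ K then
    (if d ∈ FI then ε else !ε) else f d
  have hgK : G.ValidOn K g := by
    constructor
    · intro d hd
      by_cases h2 : G.att (G.inv d) ∈ K
      · have e1 : g (G.inv d) = if G.inv d ∈ FI then ε else !ε := by
          simp only [g, G.inv_inv, hd, h2, and_self, if_true]
        have e2 : g d = if d ∈ FI then ε else !ε := by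
          simp only [g, hd, h2, and_self, if_true]
        have : G.inv d ∈ FI ↔ d ∈ FI := by
          constructor
          · intro h; have := hFI _ h; rwa [G.inv_inv] at this
          · intro h; exact hFI _ h
        rw [e1, e2]; simp [this]
      · have e1 : g (G.inv d) = f (G.inv d) := by simp [g, h2]
        have e2 : g d = f d := by simp [g, h2]
        rw [e1, e2]
        have := hf.1 (G.inv d) (by simpa using h2)
        rw [G.inv_inv] at this
        exact this.symm
    · intro v hv
      -- compare
      have hset : ∀ d, G.att d = v → ((d ∈ FI ∨ (d ∈ G.bdry K ∧ f d = ε)) ↔ g d = ε) := by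
        intro d hd
        have hdK : G.att d ∈ K := by rw [hd]; exact hv
        by_cases h2 : G.att (G.inv d) ∈ K
        · have e2 : g d = if d ∈ FI then ε else !ε := by
            simp only [g, hdK, h2, and_self, if_true]
          rw [e2, mem_bdry]
          by_cases h3 : d ∈ FI
          · simp [h3]
          · simp [h3, h2]
        · have e2 : g d = f d := by simp [g, h2]
          have h3 : d ∉ FI := fun h => h2 (hFK _ (hFI _ h))
          rw [e2, mem_bdry]
          simp [h3, hdK, h2]
      have hc : ((G.darts v).filter (fun d => d ∈ FI ∨ (d ∈ G.bdry K ∧ f d = ε))) =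
          (G.darts v).filter (fun d => g d = ε) := by
        apply Finset.filter_congr
        intro d hd
        rw [mem_darts] at hd
        exact hset d hd
      have h1 := hok v hv
      rw [hc] at h1
      cases ε with
      | true => exact h1
      | false =>
        have h4 := okAt_not G (fun d => !(g d)) v
        have h5 : (fun d => !((fun d => !(g d)) d)) = g := by
          funext d; simp
        rw [h5] at h4
        apply h4
        unfold DG.OkAt DG.ones
        have h6 : (G.darts v).filter (fun d => (!(g d)) = true) =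
            (G.darts v).filter (fun d => g d = false) := by
          apply Finset.filter_congr; intro d _; simp
        rw [h6]
        exact h1
  refine glue_aux G K g f hgK hf ?_
  intro b hb
  rw [mem_bdry] at hb
  simp [g, hb.2]

end

/-! ## The gadget lemma -/

section gadget
variable {V D W DW : Type} [Fintype V] [Fintype D] [Fintype W] [Fintype DW]

/-- where a position of the involution lives in the new graph -/
def phi (G : DG V D) (K : Finset V) :
    ({b // b ∈ G.bdry K} ⊕ DW) → ({d // G.att d ∉ K} ⊕ DW)
  | Sum.inl b => Sum.inl ⟨G.inv b.1, ((mem_bdry G K b.1).1 b.2).2⟩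
  | Sum.inr w => Sum.inr w

def newInv (G : DG V D) (K : Finset V)
    (π : ({b // b ∈ G.bdry K} ⊕ DW) → ({b // b ∈ G.bdry K} ⊕ DW)) :
    ({d // G.att d ∉ K} ⊕ DW) → ({d // G.att d ∉ K} ⊕ DW)
  | Sum.inl d => if h : G.att (G.inv d.1) ∈ K then
      phi G K (π (Sum.inl ⟨G.inv d.1, by rw [mem_bdry]; exact ⟨h, by rw [G.inv_inv]; exact d.2⟩⟩))
      else Sum.inl ⟨G.inv d.1, h⟩
  | Sum.inr w => phi G K (π (Sum.inr w))

theorem newInv_phi (G : DG V D) (K : Finset V)
    (π : ({b // b ∈ G.bdry K} ⊕ DW) → ({b // b ∈ G.bdry K} ⊕ DW)) (x) :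
    newInv G K π (phi G K x) = phi G K (π x) := by
  cases x with
  | inl b =>
    have hb := (mem_bdry G K b.1).1 b.2
    have h1 : G.att (G.inv (G.inv b.1)) ∈ K := by rw [G.inv_inv]; exact hb.1
    simp only [phi, newInv, h1, dif_pos]
    congr 3
    apply Subtype.ext
    simp [G.inv_inv]
  | inr w => simp [phi, newInv]

theorem newInv_or (G : DG V D) (K : Finset V) (x : {d // G.att d ∉ K} ⊕ DW) :
    (∃ y, x = phi G K y) ∨ ∃ d : {d // G.att d ∉ K}, ∃ h : G.att (G.inv d.1) ∉ K, x = Sum.inl d := by
  cases x with
  | inl d =>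
    by_cases h : G.att (G.inv d.1) ∈ K
    · left
      refine ⟨Sum.inl ⟨G.inv d.1, by rw [mem_bdry]; exact ⟨h, by rw [G.inv_inv]; exact d.2⟩⟩, ?_⟩
      simp [phi, G.inv_inv]
    · right; exact ⟨d, h, rfl⟩
  | inr w => left; exact ⟨Sum.inr w, rfl⟩

theorem phi_inj (G : DG V D) (K : Finset V) :
    Function.Injective (phi (DW := DW) G K) := by
  intro x y h
  cases x with
  | inl b => cases y with
    | inl b' =>
      simp only [phi, Sum.inl.injEq, Subtype.mk.injEq] at h
      congr 1
      apply Subtype.ext
      rw [← G.inv_inv b.1, ← G.inv_inv b'.1, h]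
    | inr w => simp [phi] at h
  | inr w => cases y with
    | inl b' => simp [phi] at h
    | inr w' => simpa [phi] using h

def newDG (G : DG V D) (K : Finset V) (attW : DW → W)
    (π : ({b // b ∈ G.bdry K} ⊕ DW) → ({b // b ∈ G.bdry K} ⊕ DW))
    (h1 : ∀ x, π (π x) = x) (h2 : ∀ x, π x ≠ x) :
    DG ({v // v ∉ K} ⊕ W) ({d // G.att d ∉ K} ⊕ DW) where
  att := fun x => match x with
    | Sum.inl d => Sum.inl ⟨G.att d.1, d.2⟩
    | Sum.inr w => Sum.inr (attW w)
  inv := newInv G K π
  inv_inv := by
    intro x
    rcases newInv_or G K x with ⟨y, rfl⟩ | ⟨d, h, rfl⟩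
    · rw [newInv_phi, newInv_phi, h1]
    · have e : newInv G K π (Sum.inl d) = Sum.inl ⟨G.inv d.1, h⟩ := by
        simp [newInv, h]
      rw [e]
      have h' : G.att (G.inv (G.inv d.1)) ∉ K := by rw [G.inv_inv]; exact d.2
      simp [newInv, G.inv_inv, d.2]
  inv_ne := by
    intro x
    rcases newInv_or G K x with ⟨y, rfl⟩ | ⟨d, h, rfl⟩
    · rw [newInv_phi]
      intro hh
      exact h2 y (phi_inj G K hh)
    · have e : newInv G K π (Sum.inl d) = Sum.inl ⟨G.inv d.1, h⟩ := by
        simp [newInv, h]
      rw [e]
      intro hh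
      simp only [Sum.inl.injEq] at hh
      have := congrArg Subtype.val hh
      exact G.inv_ne d.1 this

end gadget

theorem gadget : StmtGadget := by
  intro V D _ _ G hG K W DW _ _ attW hW hcard π h1 h2
  let G' := newDG G K attW π h1 h2
  -- counting darts at old vertices
  have key1 : ∀ (f' : ({d // G.att d ∉ K} ⊕ DW) → Bool) (f : D → Bool)
      (hff : ∀ d (h : G.att d ∉ K), f d = f' (Sum.inl ⟨d, h⟩)) (v : V) (hv : v ∉ K) (P : Bool → Prop),
      ((G'.darts (Sum.inl ⟨v, hv⟩)).filter (fun d => P (f' d))).card =
        ((G.darts v).filter (fun d => P (f d))).card := by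
    intro f' f hff v hv P
    symm
    apply Finset.card_bij (i := fun d hd => Sum.inl ⟨d, by
      rw [Finset.mem_filter, mem_darts] at hd
      rw [hd.1]; exact hv⟩)
    · intro d hd
      have hd' := hd
      rw [Finset.mem_filter, mem_darts] at hd
      rw [Finset.mem_filter, mem_darts]
      refine ⟨?_, ?_⟩
      · simp only [G', newDG, Sum.inl.injEq]
        apply Subtype.ext
        exact hd.1
      · have hx : G.att d ∉ K := by rw [hd.1]; exact hv
        rw [← hff d hx]; exact hd.2
    · intro d hd d' hd' h
      simpa using h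
    · intro x hx
      rw [Finset.mem_filter, mem_darts] at hx
      cases x with
      | inl d =>
        refine ⟨d.1, ?_, ?_⟩
        · rw [Finset.mem_filter, mem_darts]
          refine ⟨?_, ?_⟩
          · have := hx.1
            simp only [G', newDG, Sum.inl.injEq] at this
            exact congrArg Subtype.val this
          · rw [hff d.1 d.2]; exact hx.2
        · rfl
      | inr w =>
        have := hx.1
        simp [G', newDG] at this
  have key2 : ∀ (f' : ({d // G.att d ∉ K} ⊕ DW) → Bool) (w : W) (P : Bool → Prop),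
      ((G'.darts (Sum.inr w)).filter (fun d => P (f' d))).card =
        (Finset.univ.filter (fun d : DW => attW d = w ∧ P (f' (Sum.inr d)))).card := by
    intro f' w P
    symm
    apply Finset.card_bij (i := fun d _ => Sum.inr d)
    · intro d hd
      rw [Finset.mem_filter] at hd
      rw [Finset.mem_filter, mem_darts]
      refine ⟨?_, hd.2.2⟩
      simp only [G', newDG, Sum.inr.injEq]
      exact hd.2.1
    · intro d hd d' hd' h
      simpa using h
    · intro x hx
      rw [Finset.mem_filter, mem_darts] at hx
      cases x with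
      | inl d =>
        have := hx.1
        simp [G', newDG] at this
      | inr w' =>
        refine ⟨w', ?_, rfl⟩
        rw [Finset.mem_filter]
        refine ⟨Finset.mem_univ _, ?_, hx.2⟩
        have := hx.1
        simpa [G', newDG] using this
  have hdeg1 : ∀ v (hv : v ∉ K), G'.deg (Sum.inl ⟨v, hv⟩) = G.deg v := by
    intro v hv
    have := key1 (fun _ => true) (fun _ => true) (fun _ _ => rfl) v hv (fun _ => True)
    simpa [DG.deg] using this
  have hdeg2 : ∀ w, G'.deg (Sum.inr w) = (Finset.univ.filter (fun d => attW d = w)).card := by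
    intro w
    have := key2 (fun _ => true) w (fun _ => True)
    simpa [DG.deg] using this
  have hodd : G'.Odd135 := by
    intro x
    cases x with
    | inl v => rw [hdeg1 v.1 v.2]; exact hG.deg135 v.1
    | inr w => rw [hdeg2 w]; exact hW w
  have hlt : Fintype.card ({d // G.att d ∉ K} ⊕ DW) < Fintype.card D := by
    rw [Fintype.card_sum]
    have e1 : Fintype.card {d // G.att d ∉ K} + (G.dartsOn K).card = Fintype.card D := by
      rw [Fintype.card_subtype]
      unfold DG.dartsOn
      have := Finset.card_filter_add_card_filter_not (s := (Finset.univ : Finset D))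
        (fun d => G.att d ∈ K)
      rw [Finset.card_univ] at this
      omega
    omega
  obtain ⟨f', hf'⟩ := hG.min _ _ G' hodd hlt
  let f : D → Bool := fun d => if h : G.att d ∉ K then f' (Sum.inl ⟨d, h⟩)
    else if h2 : G.att (G.inv d) ∉ K then f' (Sum.inl ⟨G.inv d, h2⟩) else false
  have hff : ∀ d (h : G.att d ∉ K), f d = f' (Sum.inl ⟨d, h⟩) := by
    intro d h
    simp [f, h]
  have hfb : ∀ b (h : b ∈ G.bdry K), f b = f' (phi G K (Sum.inl ⟨b, h⟩)) := by
    intro b h
    have h' := (mem_bdry G K b).1 h
    have h3 : ¬ (G.att b ∉ K) := by simpa using h'.1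
    simp only [f, h3, dif_neg, not_false_eq_true, h'.2, dif_pos, phi]
  refine ⟨f, fun w => f' (Sum.inr w), ⟨?_, ?_⟩, ?_, ?_⟩
  · intro d hd
    have hd : G.att d ∉ K := by simpa using hd
    by_cases h : G.att (G.inv d) ∈ K
    · have hb : G.inv d ∈ G.bdry K := by
        rw [mem_bdry]; exact ⟨h, by rw [G.inv_inv]; exact hd⟩
      rw [hfb _ hb, hff d hd]
      simp [phi, G.inv_inv]
    · rw [hff _ h, hff d hd]
      have := hf'.1 (Sum.inl ⟨d, hd⟩)
      have e : G'.inv (Sum.inl ⟨d, hd⟩) = Sum.inl ⟨G.inv d, h⟩ := by
        simp [G', newDG, newInv, h]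
      rw [e] at this
      exact this
  · intro v hv
    have hv : v ∉ K := by simpa using hv
    have h3 := hf'.2 (Sum.inl ⟨v, hv⟩)
    unfold DG.OkAt at *
    rw [hdeg1 v hv] at h3
    have e : ((G'.darts (Sum.inl ⟨v, hv⟩)).filter (fun d => f' d = true)).card =
        ((G.darts v).filter (fun d => f d = true)).card := by
      convert key1 f' f hff v hv (fun b => b = true)
    unfold DG.ones at *
    rw [e] at h3
    exact h3
  · intro w
    have h3 := hf'.2 (Sum.inr w)
    unfold DG.OkAt at h3
    rw [hdeg2 w] at h3
    have e : ((G'.darts (Sum.inr w)).filter (fun d => f' d = true)).card =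
        (Finset.univ.filter (fun d : DW => attW d = w ∧ f' (Sum.inr d) = true)).card := by
      convert key2 f' w (fun b => b = true)
    unfold DG.ones at h3
    rw [e] at h3
    exact h3
  · have hval : ∀ x, Sum.elim (fun b : {b // b ∈ G.bdry K} => f b.1) (fun w => f' (Sum.inr w)) x =
        f' (phi G K x) := by
      intro x
      cases x with
      | inl b => simp only [Sum.elim_inl]; rw [hfb b.1 b.2]
      | inr w => simp [phi]
    intro x
    rw [hval, hval]
    have := hf'.1 (phi G K x)
    have e : G'.inv (phi G K x) = phi G K (π x) := newInv_phi G K π x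
    rw [e] at this
    exact this

end Pool.Agent.H32.F14
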