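import Pool.Agent.H32.F14.G2
import Pool.Agent.H14.F14.K
import Pool.Agent.H11.F14.D2a
import Pool.Agent.H27.F14.A45
import Pool.Agent.H27.F14.A7
import Pool.Agent.H27.F14.Fz
import Pool.Agent.H31.F14.D2b
import Pool.Agent.H34.F14.T
import Pool.Agent.H36.F14.A123
import Pool.Agent.H36.F14.D
import Pool.Agent.H36.F14.D1
import Pool.Agent.H42.F14.BM
import Pool.Agent.H42.F14.H
import Pool.Agent.H51.F14.D2ds
import Pool.Agent.H51.F14.G01
import Pool.Agent.H87.F14.A6
import Pool.Agent.H87.F14.A8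
import Pool.Agent.H87.F14.C
import Pool.Agent.H93.F14.T7

set_option autoImplicit false
set_option linter.unusedSectionVars false
set_option linter.unusedVariables false

noncomputable section

open Classical

namespace Pool.Agent.H32.F14

theorem pA1 : StmtA1 := Pool.Agent.H36.F14.a1
theorem pA2 : StmtA2 := Pool.Agent.H36.F14.a2
theorem pA3 : StmtA3 := Pool.Agent.H36.F14.a3
theorem pA4 : StmtA4 := Pool.Agent.H27.F14.a4
theorem pA5 : StmtA5 := Pool.Agent.H27.F14.a5
theorem pA6 : StmtA6 := Pool.Agent.H87.F14.a6 pA2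
theorem pA7 : StmtA7 := Pool.Agent.H27.F14.a7 pA3
theorem pA8 : StmtA8 := Pool.Agent.H87.F14.a8
theorem pBM : StmtBM := Pool.Agent.H42.F14.bm
theorem pC : StmtC := Pool.Agent.H87.F14.c_part pA1
theorem pK : StmtK := Pool.Agent.H14.F14.stmtK gadget pA1 pA7 pC pBM
theorem pT7 : StmtT7 := Pool.Agent.H93.F14.t7 glue gadget pA1 pA5 pA7 pC pK pBM
theorem pT : StmtT := Pool.Agent.H34.F14.t
theorem pH : StmtH := Pool.Agent.H42.F14.h pBM
theorem pD1 : StmtD1 := Pool.Agent.H36.F14.d1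
theorem pD2s : StmtD2s := Pool.Agent.H51.F14.d2s
theorem pD2d : StmtD2d := Pool.Agent.H51.F14.d2d
theorem pD2b : StmtD2b := Pool.Agent.H31.F14.d2b pD2s
theorem pD (hD2a : StmtD2a) : StmtD := Pool.Agent.H36.F14.d pD1 hD2a pD2b pD2d

theorem main_of (hD2a : StmtD2a) : StmtMain := by
  intro V D _ _ G hG
  have hdart : ∀ v, ∃ d, G.att d = v := by
    intro v
    have h : 0 < G.deg v := by
      rcases hG.deg135 v with h | h | h <;> omega
    unfold DG.deg at h
    rw [Finset.card_pos] at h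
    obtain ⟨d, hd⟩ := h
    exact ⟨d, (mem_darts G v d).1 hd⟩
  obtain ⟨S, Q, hb⟩ := Pool.Agent.H51.F14.g0 pT V D G hdart (pA3 V D G hG) (pA7 V D G hG)
  exact g_of_bar Pool.Agent.H51.F14.g1 pA3 pA4 pA5 pA6 pA7 pA8 pC pK pT7 pH (pD hD2a) G hG S Q hb

theorem main : StmtMain := main_of (Pool.Agent.H11.F14.d2a pD2s)

end Pool.Agent.H32.F14
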