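import Pool.Agent.H32.F14.GDefs

set_option autoImplicit false
set_option linter.unusedSectionVars false
set_option linter.unusedVariables false

noncomputable section

open Classical

namespace Pool.Agent.H32.F14

theorem even_of_inv {α : Type} (s : Finset α) (i : α → α) (h1 : ∀ a ∈ s, i a ∈ s)
    (h2 : ∀ a ∈ s, i (i a) = a) (h3 : ∀ a ∈ s, i a ≠ a) : Even s.card := by
  have h : ∑ a ∈ s, (1 : ZMod 2) = 0 := by
    refine Finset.sum_involution (fun a _ => i a) ?_ ?_ ?_ ?_
    · intro a ha; decide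
    · intro a ha _; exact h3 a ha
    · intro a ha; exact h1 a ha
    · intro a ha; exact h2 a ha
  rw [Finset.sum_const, nsmul_eq_mul, mul_one] at h
  exact (ZMod.natCast_eq_zero_iff_even).1 h

section
variable {V D : Type} [Fintype V] [Fintype D]

/-- number of darts at `A` whose partner is at `C` -/
def cnt (G : DG V D) (A C : Finset V) : ℕ :=
  (Finset.univ.filter (fun d => G.att d ∈ A ∧ G.att (G.inv d) ∈ C)).card

theorem cnt_comm (G : DG V D) (A C : Finset V) : cnt G A C = cnt G C A := by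
  unfold cnt
  apply Finset.card_bij (i := fun d _ => G.inv d)
  · intro d hd
    simp only [Finset.mem_filter, Finset.mem_univ, true_and] at hd ⊢
    rw [G.inv_inv]
    exact ⟨hd.2, hd.1⟩
  · intro d _ d' _ h
    rw [← G.inv_inv d, ← G.inv_inv d', h]
  · intro d hd
    simp only [Finset.mem_filter, Finset.mem_univ, true_and] at hd
    refine ⟨G.inv d, ?_, G.inv_inv d⟩
    simp only [Finset.mem_filter, Finset.mem_univ, true_and]
    rw [G.inv_inv]
    exact ⟨hd.2, hd.1⟩

theorem cnt_sum (G : DG V D) (A C : Finset V) : cnt G A C = ∑ s ∈ A, cnt G {s} C := by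
  unfold cnt
  rw [Finset.card_eq_sum_card_fiberwise (f := G.att) (t := A)]
  · apply Finset.sum_congr rfl
    intro s hs
    congr 1
    ext d
    simp only [Finset.mem_filter, Finset.mem_univ, true_and, Finset.mem_singleton]
    constructor
    · rintro ⟨⟨_, h2⟩, h3⟩; exact ⟨h3, h2⟩
    · rintro ⟨h3, h2⟩; exact ⟨⟨by rw [h3]; exact hs, h2⟩, h3⟩
  · intro d hd
    simp only [Finset.coe_filter, Finset.mem_univ, true_and, Set.mem_ofPred_eq] at hd
    exact hd.1

theorem even_inner (G : DG V D) (K : Finset V) : Even (cnt G K K) := by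
  unfold cnt
  apply even_of_inv _ G.inv
  · intro d hd
    simp only [Finset.mem_filter, Finset.mem_univ, true_and] at hd ⊢
    rw [G.inv_inv]; exact ⟨hd.2, hd.1⟩
  · intro d _; exact G.inv_inv d
  · intro d _; exact G.inv_ne d

theorem sum_deg (G : DG V D) (K : Finset V) :
    ∑ v ∈ K, G.deg v = (G.bdry K).card + cnt G K K := by
  have h1 : ∑ v ∈ K, G.deg v = (G.dartsOn K).card := by
    unfold DG.dartsOn DG.deg DG.darts
    rw [Finset.card_eq_sum_card_fiberwise (f := G.att) (t := K)]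
    · apply Finset.sum_congr rfl
      intro s hs
      congr 1
      ext d
      simp only [Finset.mem_filter, Finset.mem_univ, true_and]
      constructor
      · intro h; exact ⟨by rw [h]; exact hs, h⟩
      · intro h; exact h.2
    · intro d hd
      simp only [Finset.coe_filter, Finset.mem_univ, true_and, Set.mem_ofPred_eq] at hd
      exact hd
  rw [h1]
  unfold DG.dartsOn DG.bdry cnt
  have := Finset.card_filter_add_card_filter_not
    (s := (Finset.univ : Finset D).filter (fun d => G.att d ∈ K)) (fun d => G.att (G.inv d) ∈ K)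
  rw [Finset.filter_filter, Finset.filter_filter] at this
  omega

/-- capacity -/
def uu (G : DG V D) (C : Finset V) : ℕ := if ∃ v, C = {v} ∧ G.deg v = 3 then 2 else 1

/-- The alternating structure in dart terms. -/
structure Alt (G : DG V D) (S : Finset V) (Q : Finset (Finset V)) (R : Finset V)
    (B : Finset (Finset V)) (dem : V → ℕ) : Prop where
  RS : R ⊆ S
  BQ : B ⊆ Q
  req : ∀ C ∈ B, ∀ v, C = {v} → G.deg v ≠ 1
  cl : ∀ C ∈ B, ∀ d, G.att d ∈ S → G.att (G.inv d) ∈ C → G.att d ∈ R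
  kind : ∀ s ∈ R, (G.deg s = 5 ∧ (dem s = 1 ∨ dem s = 4)) ∨ (G.deg s = 3 ∧ dem s = 2)
  card : B.card = ∑ s ∈ R, dem s + 1
  pos : ∀ A ⊆ R, A.Nonempty → ∑ s ∈ A, dem s + 1 ≤ ∑ C ∈ B, min (uu G C) (cnt G A C)
  tight : ∀ s ∈ R, ∃ A ⊆ R, s ∈ A ∧
    ∑ C ∈ B, min (uu G C) (cnt G A C) ≤ ∑ s ∈ A, dem s + 2

variable {G : DG V D} {S : Finset V} {Q : Finset (Finset V)} {R : Finset V}
    {B : Finset (Finset V)} {dem : V → ℕ}

theorem bdry_comp (hb : Bar G S Q) (ha : Alt G S Q R B dem) (C : Finset V) (hC : C ∈ B) :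
    (G.bdry C).card = cnt G R C := by
  rw [cnt_comm]
  unfold cnt DG.bdry
  congr 1
  apply Finset.filter_congr
  intro d _
  constructor
  · rintro ⟨h1, h2⟩
    refine ⟨h1, ?_⟩
    have h3 := hb.edge C (ha.BQ hC) d h1
    have h4 : G.att (G.inv d) ∈ S := by
      rcases h3 with h | h
      · exact absurd h h2
      · exact h
    apply ha.cl C hC (G.inv d) h4
    rw [G.inv_inv]; exact h1
  · rintro ⟨h1, h2⟩
    refine ⟨h1, fun h3 => ?_⟩
    exact hb.notS C (ha.BQ hC) _ h3 (ha.RS h2)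

theorem card_comp_odd (hb : Bar G S Q) (C : Finset V) (hC : C ∈ Q) : Odd C.card := by
  obtain ⟨v, hv⟩ := hb.ne C hC
  obtain ⟨M, hM1, hM2, hM3⟩ := hb.crit C hC v hv
  have h1 : Even M.card := by
    apply even_of_inv M G.inv hM1
    · intro d _; exact G.inv_inv d
    · intro d _; exact G.inv_ne d
  have h2 : M.card = ∑ u ∈ C, (M.filter (fun d => G.att d = u)).card := by
    apply Finset.card_eq_sum_card_fiberwise
    intro d hd
    exact hM2 d hd
  have h3 : M.card = ∑ u ∈ C, (if u = v then 0 else 1) := by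
    rw [h2]; exact Finset.sum_congr rfl hM3
  have h4 : M.card + 1 = C.card := by
    rw [h3, ← Finset.add_sum_erase C _ hv, Finset.sum_congr rfl (g := fun _ => 1)]
    · simp only [if_true, zero_add, Finset.sum_const, smul_eq_mul, mul_one]
      exact Finset.card_erase_add_one hv
    · intro x hx
      rw [if_neg (Finset.ne_of_mem_erase hx)]
  rw [← h4]
  exact h1.add_one

theorem bdry_odd (hd : G.Odd135) (hb : Bar G S Q) (C : Finset V) (hC : C ∈ Q) :
    Odd (G.bdry C).card := by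
  have h1 := card_comp_odd hb C hC
  have h2 := sum_deg G C
  have h3 := even_inner G C
  have h4 : Odd (∑ v ∈ C, G.deg v) := by
    rw [Finset.odd_sum_iff_odd_card_odd]
    have : C.filter (fun x => Odd (G.deg x)) = C := by
      apply Finset.filter_true_of_mem
      intro v _
      rcases hd v with h | h | h <;> rw [h] <;> decide
    rw [this]; exact h1
  rw [h2] at h4
  rcases h3 with ⟨k, hk⟩
  rcases h4 with ⟨l, hl⟩
  exact ⟨l - k, by omega⟩

theorem bdry_single (hL : ∀ d : D, G.att (G.inv d) ≠ G.att d) (v : V) :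
    (G.bdry {v}).card = G.deg v := by
  unfold DG.bdry DG.deg DG.darts
  congr 1
  apply Finset.filter_congr
  intro d _
  simp only [Finset.mem_singleton]
  constructor
  · intro h; exact h.1
  · intro h; exact ⟨h, by rw [← h]; exact hL d⟩


theorem exists_other (hd : G.Odd135) (hb : Bar G S Q) (ha : Alt G S Q R B dem) (C : Finset V)
    (hC : C ∈ B) : 2 ≤ Cᶜ.card := by
  have h1 := bdry_odd hd hb C (ha.BQ hC)
  have h2 : 0 < (G.bdry C).card := h1.pos
  rw [bdry_comp hb ha C hC, cnt_comm] at h2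
  unfold cnt at h2
  rw [Finset.card_pos] at h2
  obtain ⟨d, hd'⟩ := h2
  simp only [Finset.mem_filter, Finset.mem_univ, true_and] at hd'
  have h3 : dem (G.att (G.inv d)) ≤ ∑ s ∈ R, dem s :=
    Finset.single_le_sum (f := dem) (fun _ _ => Nat.zero_le _) hd'.2
  have h4 := ha.kind _ hd'.2
  have h5 : 1 < B.card := by rw [ha.card]; omega
  obtain ⟨C', hC', hne⟩ := Finset.exists_mem_ne h5 C
  obtain ⟨v, hv⟩ := hb.ne C' (ha.BQ hC')
  have hvC : v ∉ C := fun h => hne (hb.disj C' (ha.BQ hC') C (ha.BQ hC) v hv h)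
  have hsC : G.att (G.inv d) ∉ C := fun h => hb.notS C (ha.BQ hC) _ h (ha.RS hd'.2)
  have hne2 : v ≠ G.att (G.inv d) := by
    intro h
    rw [h] at hv
    exact hb.notS C' (ha.BQ hC') _ hv (ha.RS hd'.2)
  have h6 : 1 < Cᶜ.card := by
    rw [Finset.one_lt_card]
    exact ⟨v, by simpa using hvC, _, by simpa using hsC, hne2⟩
  exact h6

theorem comp_ne1 (hG : MinCex G) (A3 : StmtA3) (A4 : StmtA4) (hb : Bar G S Q)
    (ha : Alt G S Q R B dem) (C : Finset V) (hC : C ∈ B) : (G.bdry C).card ≠ 1 := by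
  intro h
  have h2 := exists_other hG.deg135 hb ha C hC
  rcases A4 V D G hG C h with h3 | h3
  · obtain ⟨v, hv⟩ := Finset.card_eq_one.1 h3
    have h4 := ha.req C hC v hv
    rw [hv, bdry_single (A3 V D G hG)] at h
    exact h4 h
  · omega

theorem comp3 (hG : MinCex G) (A3 : StmtA3) (A6 : StmtA6) (hb : Bar G S Q)
    (ha : Alt G S Q R B dem) (C : Finset V) (hC : C ∈ B) (h : (G.bdry C).card = 3) :
    ∃ v, C = {v} ∧ G.deg v = 3 := by
  have h2 := exists_other hG.deg135 hb ha C hC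
  rcases A6 V D G hG C h with h3 | h3
  · obtain ⟨v, hv⟩ := Finset.card_eq_one.1 h3
    refine ⟨v, hv, ?_⟩
    rwa [hv, bdry_single (A3 V D G hG)] at h
  · omega

theorem comp5 (hG : MinCex G) (A3 : StmtA3) (A8 : StmtA8) (hb : Bar G S Q)
    (ha : Alt G S Q R B dem) (C : Finset V) (hC : C ∈ B) (h : (G.bdry C).card = 5) :
    ∃ v, C = {v} ∧ G.deg v = 5 := by
  have h3 : C.card = 1 := by
    apply A8 V D G hG C h
    intro b hbd
    rw [mem_bdry] at hbd
    obtain ⟨M, hM1, hM2, hM3⟩ := hb.crit C (ha.BQ hC) (G.att b) hbd.1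
    have hbM : b ∉ M := fun hh => hbd.2 (hM2 _ (hM1 _ hh))
    refine ⟨M, hM1, hM2, hbM, ?_⟩
    intro v hv
    rw [Finset.filter_insert]
    by_cases hvb : G.att b = v
    · rw [if_pos hvb, Finset.card_insert_of_notMem]
      · have := hM3 v hv
        rw [if_pos hvb.symm] at this
        rw [this]
      · intro hh; exact hbM (Finset.mem_of_mem_filter _ hh)
    · rw [if_neg hvb, hM3 v hv, if_neg (fun hh => hvb hh.symm)]
  obtain ⟨v, hv⟩ := Finset.card_eq_one.1 h3
  refine ⟨v, hv, ?_⟩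
  rwa [hv, bdry_single (A3 V D G hG)] at h

theorem cnt_verts (hb : Bar G S Q) (A : Finset V) (P : Finset (Finset V)) (hP : P ⊆ Q) :
    cnt G A (P.biUnion id) = ∑ C ∈ P, cnt G A C := by
  unfold cnt
  rw [← Finset.card_biUnion]
  · congr 1
    ext d
    simp only [Finset.mem_filter, Finset.mem_univ, true_and, Finset.mem_biUnion, id]
    constructor
    · rintro ⟨h1, C, hC, h2⟩; exact ⟨C, hC, h1, h2⟩
    · rintro ⟨C, hC, h1, h2⟩; exact ⟨h1, C, hC, h2⟩
  · intro C hC C' hC' hne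
    rw [Function.onFun, Finset.disjoint_left]
    intro d hd hd'
    simp only [Finset.mem_filter, Finset.mem_univ, true_and] at hd hd'
    exact hne (hb.disj C (hP hC) C' (hP hC') _ hd.2 hd'.2)

theorem cnt_union (A U W : Finset V) (h : Disjoint U W) :
    cnt G A (U ∪ W) = cnt G A U + cnt G A W := by
  unfold cnt
  rw [← Finset.card_union_of_disjoint]
  · congr 1
    ext d
    simp only [Finset.mem_filter, Finset.mem_univ, true_and, Finset.mem_union]
    tauto
  · rw [Finset.disjoint_left] at h ⊢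
    intro d hd hd'
    simp only [Finset.mem_filter, Finset.mem_univ, true_and] at hd hd'
    exact h hd.2 hd'.2

theorem cnt_mono (A U W : Finset V) (h : U ⊆ W) : cnt G A U ≤ cnt G A W := by
  unfold cnt
  apply Finset.card_le_card
  intro d hd
  simp only [Finset.mem_filter, Finset.mem_univ, true_and] at hd ⊢
  exact ⟨hd.1, h hd.2⟩

theorem cnt_univ (A : Finset V) : cnt G A Finset.univ = ∑ v ∈ A, G.deg v := by
  have h := sum_deg G A
  rw [h]
  unfold cnt DG.bdry
  have := Finset.card_filter_add_card_filter_not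
    (s := (Finset.univ : Finset D).filter (fun d => G.att d ∈ A)) (fun d => G.att (G.inv d) ∈ A)
  rw [Finset.filter_filter, Finset.filter_filter] at this
  simp only [Finset.mem_univ, and_true]
  omega

theorem cnt_le (A U : Finset V) : cnt G A U ≤ ∑ v ∈ A, G.deg v := by
  rw [← cnt_univ]; exact cnt_mono _ _ _ (Finset.subset_univ _)

/-- vertices of a family of components are not in `S` -/
theorem verts_disj (hb : Bar G S Q) (P : Finset (Finset V)) (hP : P ⊆ Q) (Z : Finset V)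
    (hZ : Z ⊆ S) : Disjoint Z (P.biUnion id) := by
  rw [Finset.disjoint_left]
  intro v hv hv'
  simp only [Finset.mem_biUnion, id] at hv'
  obtain ⟨C, hC, hvC⟩ := hv'
  exact hb.notS C (hP hC) v hvC (hZ hv)

theorem inner_zero (hb : Bar G S Q) (P : Finset (Finset V)) (hP : P ⊆ Q) (Z : Finset V)
    (hZ : Z ⊆ S) (h : ∑ v ∈ Z, G.deg v ≤ cnt G Z (P.biUnion id) + 1) : cnt G Z Z = 0 := by
  have h1 := verts_disj hb P hP Z hZ
  have h2 := cnt_union (G := G) Z Z _ h1
  have h3 := cnt_le (G := G) Z (Z ∪ P.biUnion id)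
  have h4 := even_inner G Z
  rcases h4 with ⟨k, hk⟩
  omega

theorem ind_of_zero (Z : Finset V) (h : cnt G Z Z = 0) : G.Ind Z := by
  intro d h1 h2
  unfold cnt at h
  rw [Finset.card_eq_zero] at h
  have : d ∈ Finset.univ.filter (fun d => G.att d ∈ Z ∧ G.att (G.inv d) ∈ Z) := by
    simp [h1, h2]
  rw [h] at this
  simp at this

/-- boundary darts of components all of whose edges go to `Z` -/
theorem go_Z (hb : Bar G S Q) (ha : Alt G S Q R B dem) (Z : Finset V) (C : Finset V) (hC : C ∈ B)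
    (h : ∀ s ∈ R, s ∉ Z → cnt G {s} C = 0) (d : D) (h1 : G.att d ∈ C) (h2 : G.att (G.inv d) ∉ C) :
    G.att (G.inv d) ∈ Z := by
  by_contra h3
  have h4 : G.att (G.inv d) ∈ S := by
    rcases hb.edge C (ha.BQ hC) d h1 with h | h
    · exact absurd h h2
    · exact h
  have h5 : G.att (G.inv d) ∈ R := by
    apply ha.cl C hC (G.inv d) h4
    rw [G.inv_inv]; exact h1
  have h6 := h _ h5 h3
  unfold cnt at h6
  rw [Finset.card_eq_zero] at h6
  have : G.inv d ∈ Finset.univ.filter (fun e => G.att e ∈ ({G.att (G.inv d)} : Finset V) ∧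
      G.att (G.inv e) ∈ C) := by
    simp [G.inv_inv, h1]
  rw [h6] at this
  simp at this

/-- the 2-cut -/
theorem cut2_aux (hG : MinCex G) (A5 : StmtA5) (hb : Bar G S Q) (ha : Alt G S Q R B dem)
    (Z : Finset V) (hZ : Z ⊆ R) (P : Finset (Finset V)) (hP : P ⊆ B)
    (h : ∀ C ∈ P, ∀ s ∈ R, s ∉ Z → cnt G {s} C = 0) (h5 : ∀ s ∈ Z, G.deg s = 5)
    (h1 : 5 * Z.card = ∑ C ∈ P, cnt G R C + 2) (h2 : 5 * Z.card ≤ cnt G Z (B.biUnion id) + 1) :
    False := by
  have hs : ∑ v ∈ Z, G.deg v = 5 * Z.card := by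
    rw [Finset.sum_congr rfl h5, Finset.sum_const, smul_eq_mul, mul_comm]
  have hin := inner_zero hb B ha.BQ Z (hZ.trans ha.RS) (by rw [hs]; exact h2)
  have hPQ := hP.trans ha.BQ
  set W := P.biUnion id with hW
  have hdis := verts_disj hb P hPQ Z (hZ.trans ha.RS)
  rw [← hW] at hdis
  -- all boundary edges of W go to Z
  have hbW : (G.bdry W).card = cnt G W Z := by
    unfold DG.bdry cnt
    congr 1
    apply Finset.filter_congr
    intro d _
    constructor
    · rintro ⟨h3, h4⟩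
      refine ⟨h3, ?_⟩
      rw [hW, Finset.mem_biUnion] at h3
      obtain ⟨C, hC, h3⟩ := h3
      apply go_Z hb ha Z C (hP hC) (h C hC) d h3
      intro h6
      apply h4
      rw [hW, Finset.mem_biUnion]
      exact ⟨C, hC, h6⟩
    · rintro ⟨h3, h4⟩
      refine ⟨h3, fun h6 => ?_⟩
      rw [Finset.disjoint_left] at hdis
      exact hdis h4 h6
  have hcW : cnt G Z W = ∑ C ∈ P, cnt G R C := by
    rw [hW, cnt_verts hb Z P hPQ]
    apply Finset.sum_congr rfl
    intro C hC
    rw [cnt_sum G Z C, cnt_sum G R C]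
    apply Finset.sum_subset hZ
    intro s hs hs'
    exact h C hC s hs hs'
  apply A5 V D G hG (Z ∪ W)
  have e1 := sum_deg G (Z ∪ W)
  have e2 := sum_deg G W
  have e3 : ∑ v ∈ Z ∪ W, G.deg v = ∑ v ∈ Z, G.deg v + ∑ v ∈ W, G.deg v :=
    Finset.sum_union hdis
  have e4 : cnt G (Z ∪ W) (Z ∪ W) = cnt G Z Z + cnt G Z W + (cnt G W Z + cnt G W W) := by
    rw [cnt_union _ _ _ hdis, cnt_comm G (Z ∪ W) Z, cnt_comm G (Z ∪ W) W, cnt_union _ _ _ hdis,
      cnt_union _ _ _ hdis]
  have e5 := cnt_comm G Z W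
  omega

/-- families of single vertices of degree 5 -/
theorem verts_five (hG : MinCex G) (A3 : StmtA3) (A8 : StmtA8) (hb : Bar G S Q)
    (ha : Alt G S Q R B dem) (P : Finset (Finset V)) (hP : P ⊆ B)
    (h5 : ∀ C ∈ P, cnt G R C = 5) :
    (∀ v ∈ P.biUnion id, G.deg v = 5) ∧ (P.biUnion id).card = P.card ∧
    ∀ C ∈ P, ∀ d, G.att d ∈ C → G.att (G.inv d) ∉ C := by
  have h1 : ∀ C ∈ P, ∃ v, C = {v} ∧ G.deg v = 5 := by
    intro C hC
    apply comp5 hG A3 A8 hb ha C (hP hC)
    rw [bdry_comp hb ha C (hP hC), h5 C hC]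
  refine ⟨?_, ?_, ?_⟩
  · intro v hv
    rw [Finset.mem_biUnion] at hv
    obtain ⟨C, hC, hv⟩ := hv
    obtain ⟨w, hw, hdw⟩ := h1 C hC
    rw [id, hw, Finset.mem_singleton] at hv
    rw [hv]; exact hdw
  · rw [Finset.card_biUnion]
    · rw [Finset.card_eq_sum_ones P]
      apply Finset.sum_congr rfl
      intro C hC
      obtain ⟨w, hw, hdw⟩ := h1 C hC
      rw [id, hw, Finset.card_singleton]
    · intro C hC C' hC' hne
      rw [Function.onFun, Finset.disjoint_left]
      intro v hv hv'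
      exact hne (hb.disj C (ha.BQ (hP hC)) C' (ha.BQ (hP hC')) v hv hv')
  · intro C hC d hd1 hd2
    obtain ⟨w, hw, hdw⟩ := h1 C hC
    rw [hw, Finset.mem_singleton] at hd1 hd2
    exact A3 V D G hG d (by rw [hd1, hd2])

/-- StmtC for a set of components -/
theorem locC_aux (hG : MinCex G) (A3 : StmtA3) (A8 : StmtA8) (hC : StmtC) (hb : Bar G S Q)
    (ha : Alt G S Q R B dem)
    (Z : Finset V) (hZ : Z ⊆ R) (P : Finset (Finset V)) (hP : P ⊆ B)
    (h : ∀ C ∈ P, ∀ s ∈ R, s ∉ Z → cnt G {s} C = 0) (h5 : ∀ s ∈ Z, G.deg s = 5)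
    (hP5 : ∀ C ∈ P, cnt G R C = 5) (hPn : P.Nonempty)
    (h1 : Z.card = P.card + 1) (h2 : 5 * Z.card ≤ cnt G Z (B.biUnion id) + 1) :
    False := by
  have hs : ∑ v ∈ Z, G.deg v = 5 * Z.card := by
    rw [Finset.sum_congr rfl h5, Finset.sum_const, smul_eq_mul, mul_comm]
  have hin := inner_zero hb B ha.BQ Z (hZ.trans ha.RS) (by rw [hs]; exact h2)
  obtain ⟨v1, v2, v3⟩ := verts_five hG A3 A8 hb ha P hP hP5
  apply hC V D G hG (P.biUnion id) Z
  · obtain ⟨C, hC⟩ := hPn
    obtain ⟨v, hv⟩ := hb.ne C (ha.BQ (hP hC))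
    exact ⟨v, Finset.mem_biUnion.2 ⟨C, hC, hv⟩⟩
  · exact (verts_disj hb P (hP.trans ha.BQ) Z (hZ.trans ha.RS)).symm
  · exact v1
  · exact h5
  · exact ind_of_zero Z hin
  · intro d hd
    rw [Finset.mem_biUnion] at hd
    obtain ⟨C, hC, hd⟩ := hd
    exact go_Z hb ha Z C (hP hC) (h C hC) d hd (v3 C hC d hd)
  · rw [v2]; exact h1

/-- StmtT7 for a set of components -/
theorem locT_aux (hG : MinCex G) (A3 : StmtA3) (A6 : StmtA6) (A8 : StmtA8) (hT : StmtT7)
    (hb : Bar G S Q) (ha : Alt G S Q R B dem)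
    (Z : Finset V) (hZ : Z ⊆ R) (P : Finset (Finset V)) (hP : P ⊆ B) (c : Finset V) (hc : c ∈ B)
    (hcP : c ∉ P)
    (h : ∀ C ∈ insert c P, ∀ s ∈ R, s ∉ Z → cnt G {s} C = 0) (h5 : ∀ s ∈ Z, G.deg s = 5)
    (hP5 : ∀ C ∈ P, cnt G R C = 5) (hc3 : cnt G R c = 3)
    (h1 : Z.card = P.card + 2) (h2 : 5 * Z.card ≤ cnt G Z (B.biUnion id) + 1) :
    False := by
  have hs : ∑ v ∈ Z, G.deg v = 5 * Z.card := by
    rw [Finset.sum_congr rfl h5, Finset.sum_const, smul_eq_mul, mul_comm]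
  have hin := inner_zero hb B ha.BQ Z (hZ.trans ha.RS) (by rw [hs]; exact h2)
  obtain ⟨v1, v2, v3⟩ := verts_five hG A3 A8 hb ha P hP hP5
  obtain ⟨w, hw, hdw⟩ := comp3 hG A3 A6 hb ha c hc (by rw [bdry_comp hb ha c hc, hc3])
  have hwc : w ∈ c := by rw [hw]; simp
  apply hT V D G hG (P.biUnion id) Z w
  · exact (verts_disj hb P (hP.trans ha.BQ) Z (hZ.trans ha.RS)).symm
  · intro hh
    rw [Finset.mem_biUnion] at hh
    obtain ⟨C, hC, hh⟩ := hh
    have := hb.disj C (ha.BQ (hP hC)) c (ha.BQ hc) w hh hwc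
    rw [this] at hC
    exact hcP hC
  · intro hh
    exact hb.notS c (ha.BQ hc) w hwc (ha.RS (hZ hh))
  · exact hdw
  · exact v1
  · exact h5
  · exact ind_of_zero Z hin
  · intro d hd
    rw [Finset.mem_insert] at hd
    rcases hd with hd | hd
    · have hdc : G.att d ∈ c := by rw [hd]; exact hwc
      apply go_Z hb ha Z c hc (h c (Finset.mem_insert_self _ _)) d hdc
      intro hh
      rw [hw, Finset.mem_singleton] at hh
      exact A3 V D G hG d (by rw [hh, hd])
    · rw [Finset.mem_biUnion] at hd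
      obtain ⟨C, hC, hd⟩ := hd
      exact go_Z hb ha Z C (hP hC) (h C (Finset.mem_insert_of_mem hC)) d hd (v3 C hC d hd)
  · rw [v2]; exact h1

/-- StmtC and StmtK for a set of vertices of `S` -/
theorem locK_aux (hG : MinCex G) (A3 : StmtA3) (A8 : StmtA8) (hC : StmtC) (hK : StmtK)
    (hb : Bar G S Q) (ha : Alt G S Q R B dem)
    (X : Finset V) (hX : X ⊆ R) (hXn : X.Nonempty) (P : Finset (Finset V)) (hP : P ⊆ B)
    (h5 : ∀ s ∈ X, G.deg s = 5)
    (h : ∀ s ∈ X, ∀ C ∈ B, cnt G {s} C ≠ 0 → C ∈ P)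
    (hP5 : ∀ C ∈ P, cnt G R C = 5)
    (h1 : P.card = X.card + 1) (h2 : 5 * X.card ≤ cnt G X (B.biUnion id) + 1) :
    False := by
  have hs : ∑ v ∈ X, G.deg v = 5 * X.card := by
    rw [Finset.sum_congr rfl h5, Finset.sum_const, smul_eq_mul, mul_comm]
  obtain ⟨v1, v2, v3⟩ := verts_five hG A3 A8 hb ha P hP hP5
  have hdis := verts_disj hb P (hP.trans ha.BQ) X (hX.trans ha.RS)
  -- edges from X to components go to P
  have hXP : ∀ d, G.att d ∈ X → G.att (G.inv d) ∈ B.biUnion id → G.att (G.inv d) ∈ P.biUnion id := by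
    intro d hd1 hd2
    rw [Finset.mem_biUnion] at hd2 ⊢
    obtain ⟨C, hC, hd2⟩ := hd2
    refine ⟨C, ?_, hd2⟩
    apply h _ hd1 C hC
    unfold cnt
    rw [Finset.card_ne_zero]
    exact ⟨d, by simpa using hd2⟩
  have hInd : G.Ind (P.biUnion id) := by
    intro d hd1 hd2
    rw [Finset.mem_biUnion] at hd1 hd2
    obtain ⟨C, hC, hd1⟩ := hd1
    obtain ⟨C', hC', hd2⟩ := hd2
    rcases hb.edge C (ha.BQ (hP hC)) d hd1 with h6 | h6
    · exact v3 C hC d hd1 h6
    · exact hb.notS C' (ha.BQ (hP hC')) _ hd2 h6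
  -- the darts of X not going to P
  have hsplit : (Finset.univ.filter (fun d => G.att d ∈ X ∧ G.att (G.inv d) ∉ P.biUnion id)).card ≤ 1 := by
    have e1 := Finset.card_filter_add_card_filter_not
      (s := (Finset.univ : Finset D).filter (fun d => G.att d ∈ X))
      (fun d => G.att (G.inv d) ∈ P.biUnion id)
    rw [Finset.filter_filter, Finset.filter_filter] at e1
    have e2 : ((Finset.univ : Finset D).filter (fun d => G.att d ∈ X)).card = 5 * X.card := by
      rw [← hs, ← cnt_univ]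
      unfold cnt
      congr 1
      ext d; simp
    have e3 : cnt G X (B.biUnion id) ≤ cnt G X (P.biUnion id) := by
      unfold cnt
      apply Finset.card_le_card
      intro d hd
      simp only [Finset.mem_filter, Finset.mem_univ, true_and] at hd ⊢
      exact ⟨hd.1, hXP d hd.1 hd.2⟩
    unfold cnt at e3 h2
    omega
  by_cases h0 : (Finset.univ.filter (fun d => G.att d ∈ X ∧ G.att (G.inv d) ∉ P.biUnion id)).card = 0
  · rw [Finset.card_eq_zero] at h0
    apply hC V D G hG X (P.biUnion id) hXn hdis h5 v1 hInd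
    · intro d hd
      by_contra hh
      have : d ∈ Finset.univ.filter (fun d => G.att d ∈ X ∧ G.att (G.inv d) ∉ P.biUnion id) := by
        rw [Finset.mem_filter]; exact ⟨Finset.mem_univ _, hd, hh⟩
      rw [h0] at this
      simp at this
    · rw [v2]; exact h1
  · have h3 : (Finset.univ.filter (fun d => G.att d ∈ X ∧ G.att (G.inv d) ∉ P.biUnion id)).card = 1 := by
      omega
    obtain ⟨f, hf⟩ := Finset.card_eq_one.1 h3
    have hf1 : f ∈ Finset.univ.filter (fun d => G.att d ∈ X ∧ G.att (G.inv d) ∉ P.biUnion id) := by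
      rw [hf]; simp
    rw [Finset.mem_filter] at hf1
    apply hK V D G hG X (P.biUnion id) hdis h5 v1 hInd
    · refine ⟨f, hf1.2.1, hf1.2.2, ?_⟩
      intro d hd hne
      by_contra hh
      have : d ∈ Finset.univ.filter (fun d => G.att d ∈ X ∧ G.att (G.inv d) ∉ P.biUnion id) := by
        rw [Finset.mem_filter]; exact ⟨Finset.mem_univ _, hd, hh⟩
      rw [hf, Finset.mem_singleton] at this
      exact hne this
    · rw [v2]; exact h1


/-! ### transfer to the abstract setting -/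

/-- the edge numbers -/
def eM (G : DG V D) (R : Finset V) (B : Finset (Finset V)) : {s // s ∈ R} → {C // C ∈ B} → ℕ :=
  fun s C => cnt G {s.1} C.1

/-- the underlying set of vertices -/
def vS (A : Finset {s // s ∈ R}) : Finset V := A.map (Function.Embedding.subtype _)

def vP (P : Finset {C // C ∈ B}) : Finset (Finset V) := P.map (Function.Embedding.subtype _)

theorem mem_vS (A : Finset {s // s ∈ R}) (v : V) : v ∈ vS A ↔ ∃ h : v ∈ R, (⟨v, h⟩ : {s // s ∈ R}) ∈ A := by
  unfold vS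
  simp

theorem mem_vP (P : Finset {C // C ∈ B}) (C : Finset V) :
    C ∈ vP P ↔ ∃ h : C ∈ B, (⟨C, h⟩ : {C // C ∈ B}) ∈ P := by
  unfold vP
  simp

theorem vS_card (A : Finset {s // s ∈ R}) : (vS A).card = A.card := Finset.card_map _
theorem vP_card (P : Finset {C // C ∈ B}) : (vP P).card = P.card := Finset.card_map _

theorem vS_sub (A : Finset {s // s ∈ R}) : vS A ⊆ R := by
  intro v hv; rw [mem_vS] at hv; exact hv.1

theorem vP_sub (P : Finset {C // C ∈ B}) : vP P ⊆ B := by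
  intro v hv; rw [mem_vP] at hv; exact hv.1

theorem sum_vS (A : Finset {s // s ∈ R}) (f : V → ℕ) : ∑ v ∈ vS A, f v = ∑ s ∈ A, f s.1 := by
  unfold vS
  rw [Finset.sum_map]
  rfl

theorem sum_vP (P : Finset {C // C ∈ B}) (f : Finset V → ℕ) :
    ∑ C ∈ vP P, f C = ∑ C ∈ P, f C.1 := by
  unfold vP
  rw [Finset.sum_map]
  rfl

theorem eA_eM (A : Finset {s // s ∈ R}) (C : {C // C ∈ B}) :
    eA (eM G R B) A C = cnt G (vS A) C.1 := by
  unfold eA eM
  rw [cnt_sum G (vS A) C.1, sum_vS]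

theorem dC_eM (C : {C // C ∈ B}) : dC (eM G R B) C = cnt G R C.1 := by
  unfold dC eM
  rw [cnt_sum G R C.1]
  exact Finset.sum_coe_sort R (fun s => cnt G {s} C.1)

theorem outA_eM (hb : Bar G S Q) (ha : Alt G S Q R B dem) (A : Finset {s // s ∈ R}) :
    outA (eM G R B) A = cnt G (vS A) (B.biUnion id) := by
  unfold outA
  rw [Finset.sum_comm, cnt_verts hb _ B ha.BQ]
  have h : ∀ C : {C // C ∈ B}, ∑ s ∈ A, eM G R B s C = cnt G (vS A) C.1 := fun C => eA_eM A C
  rw [Finset.sum_congr rfl (fun C _ => h C)]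
  exact Finset.sum_coe_sort B (fun C => cnt G (vS A) C)

theorem alt_false (hG : MinCex G) (A3 : StmtA3) (A4 : StmtA4) (A5 : StmtA5) (A6 : StmtA6)
    (A7 : StmtA7) (A8 : StmtA8) (hC : StmtC) (hK : StmtK) (hT : StmtT7) (hD : StmtD)
    (hb : Bar G S Q) (ha : Alt G S Q R B dem) : False := by
  have hu : ∀ C : {C // C ∈ B}, uC (eM G R B) C = uu G C.1 := by
    intro C
    unfold uC uu
    rw [dC_eM, ← bdry_comp hb ha C.1 C.2]
    by_cases h : (G.bdry C.1).card = 3
    · rw [if_pos h, if_pos (comp3 hG A3 A6 hb ha C.1 C.2 h)]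
    · rw [if_neg h, if_neg]
      rintro ⟨v, hv, hv3⟩
      apply h
      rw [hv, bdry_single (A3 V D G hG), hv3]
  have hr : ∀ A : Finset {s // s ∈ R}, rA (eM G R B) A =
      ∑ C ∈ B, min (uu G C) (cnt G (vS A) C) := by
    intro A
    unfold rA
    rw [Finset.sum_congr rfl (fun C _ => by rw [hu C, eA_eM A C])]
    exact Finset.sum_coe_sort B (fun C => min (uu G C) (cnt G (vS A) C))
  have hodd : ∀ C : {C // C ∈ B}, Odd (dC (eM G R B) C) := by
    intro C
    rw [dC_eM, ← bdry_comp hb ha C.1 C.2]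
    exact bdry_odd hG.deg135 hb C.1 (ha.BQ C.2)
  have hge : ∀ C : {C // C ∈ B}, 3 ≤ dC (eM G R B) C := by
    intro C
    have h1 := hodd C
    have h2 := comp_ne1 hG A3 A4 hb ha C.1 C.2
    rw [dC_eM, ← bdry_comp hb ha C.1 C.2] at *
    rcases h1 with ⟨k, hk⟩
    omega
  -- transfer of the conditions in the local lemmas
  have tr5 : ∀ P : Finset {C // C ∈ B}, (∀ C ∈ P, dC (eM G R B) C = 5) →
      ∀ C ∈ vP P, cnt G R C = 5 := by
    intro P h C hC
    rw [mem_vP] at hC
    obtain ⟨h1, h2⟩ := hC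
    have := h _ h2
    rwa [dC_eM] at this
  have trZ : ∀ (P : Finset {C // C ∈ B}) (Z : Finset {s // s ∈ R}),
      (∀ C ∈ P, ∀ s, s ∉ Z → eM G R B s C = 0) →
      ∀ C ∈ vP P, ∀ s ∈ R, s ∉ vS Z → cnt G {s} C = 0 := by
    intro P Z h C hC s hs hsZ
    rw [mem_vP] at hC
    obtain ⟨h1, h2⟩ := hC
    apply h _ h2 ⟨s, hs⟩
    intro h3
    apply hsZ
    rw [mem_vS]
    exact ⟨hs, h3⟩
  have trd : ∀ (Z : Finset {s // s ∈ R}), (∀ s ∈ Z, G.deg s.1 = 5) → ∀ s ∈ vS Z, G.deg s = 5 := by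
    intro Z h s hs
    rw [mem_vS] at hs
    obtain ⟨h1, h2⟩ := hs
    exact h _ h2
  refine hD {s // s ∈ R} {C // C ∈ B} (eM G R B) (fun s => G.deg s.1) (fun s => dem s.1)
    (fun s => ha.kind s.1 s.2) ?_ hodd hge ?_ ?_ ?_ ?_ ?_ ?_ ?_ ?_
  · -- at most `full` edges
    intro s
    have h1 := cnt_verts hb {s.1} B ha.BQ
    have h2 := cnt_le (G := G) {s.1} (B.biUnion id)
    rw [h1, Finset.sum_singleton] at h2
    have h3 : ∑ C : {C // C ∈ B}, eM G R B s C = ∑ C ∈ B, cnt G {s.1} C :=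
      Finset.sum_coe_sort B (fun C => cnt G {s.1} C)
    rw [h3]; exact h2
  · -- simple
    intro s C hle
    have h1 : ∃ v, C.1 = {v} := by
      have h2 := hodd C
      have h3 := hge C
      rw [dC_eM, ← bdry_comp hb ha C.1 C.2] at hle h2 h3
      rcases h2 with ⟨k, hk⟩
      have h4 : (G.bdry C.1).card = 3 ∨ (G.bdry C.1).card = 5 := by omega
      rcases h4 with h4 | h4
      · obtain ⟨v, hv, _⟩ := comp3 hG A3 A6 hb ha C.1 C.2 h4
        exact ⟨v, hv⟩
      · obtain ⟨v, hv, _⟩ := comp5 hG A3 A8 hb ha C.1 C.2 h4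
        exact ⟨v, hv⟩
    obtain ⟨v, hv⟩ := h1
    unfold eM cnt
    rw [Finset.card_le_one]
    intro d hd d' hd'
    simp only [Finset.mem_filter, Finset.mem_univ, true_and, Finset.mem_singleton, hv] at hd hd'
    apply A7 V D G hG d d'
    · rw [hd.1, hd'.1]
    · rw [hd.2, hd'.2]
  · -- card
    rw [Fintype.card_coe, ha.card]
    have : ∑ s : {s // s ∈ R}, dem s.1 = ∑ s ∈ R, dem s := Finset.sum_coe_sort R dem
    rw [this]
  · -- pos
    intro A hA
    rw [hr A, ← sum_vS A dem]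
    apply ha.pos _ (vS_sub A)
    obtain ⟨s, hs⟩ := hA
    exact ⟨s.1, by rw [mem_vS]; exact ⟨s.2, hs⟩⟩
  · -- tight
    intro s
    obtain ⟨A, hA, hsA, h⟩ := ha.tight s.1 s.2
    refine ⟨A.subtype (fun v => v ∈ R), ?_, ?_⟩
    · simpa using hsA
    · have e1 : vS (A.subtype (fun v => v ∈ R)) = A := by
        ext v
        rw [mem_vS]
        constructor
        · rintro ⟨h1, h2⟩; simpa using h2
        · intro h1; exact ⟨hA h1, by simpa using h1⟩
      rw [hr, e1]
      have e2 := sum_vS (A.subtype (fun v => v ∈ R)) dem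
      rw [e1] at e2
      rw [← e2]; exact h
  · -- cut2
    intro Z P h h5 h1 h2
    rw [outA_eM hb ha Z, ← vS_card] at h2
    refine cut2_aux hG A5 hb ha (vS Z) (vS_sub Z) (vP P) (vP_sub P) (trZ P Z h) (trd Z h5) ?_ h2
    rw [vS_card, h1, sum_vP]
    congr 1
    apply Finset.sum_congr rfl
    intro C _
    exact dC_eM C
  · -- C
    intro Z P h h5 h6 h7 h1 h2
    rw [outA_eM hb ha Z, ← vS_card] at h2
    refine locC_aux hG A3 A8 hC hb ha (vS Z) (vS_sub Z) (vP P) (vP_sub P) (trZ P Z h) (trd Z h5)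
      (tr5 P h6) ?_ ?_ h2
    · obtain ⟨C, hC⟩ := h7
      exact ⟨C.1, by rw [mem_vP]; exact ⟨C.2, hC⟩⟩
    · rw [vS_card, vP_card]; exact h1
  · -- T7
    intro Z P c hc h h5 h6 h7 h1 h2
    rw [outA_eM hb ha Z, ← vS_card] at h2
    refine locT_aux hG A3 A6 A8 hT hb ha (vS Z) (vS_sub Z) (vP P) (vP_sub P) c.1 c.2 ?_ ?_
      (trd Z h5) (tr5 P h6) ?_ ?_ h2
    · rw [mem_vP]; rintro ⟨_, h8⟩; exact hc h8
    · intro C hC s hs hsZ
      rw [Finset.mem_insert] at hC
      refine trZ _ Z h C ?_ s hs hsZ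
      rw [mem_vP]
      rcases hC with hC | hC
      · rw [hC]; exact ⟨c.2, (@Finset.mem_insert _ (fun a b => propDecidable (a = b)) _ _ _).2 (Or.inl rfl)⟩
      · rw [mem_vP] at hC
        exact ⟨hC.1, (@Finset.mem_insert _ (fun a b => propDecidable (a = b)) _ _ _).2 (Or.inr hC.2)⟩
    · rw [← dC_eM]; exact h7
    · rw [vS_card, vP_card]; exact h1
  · -- K
    intro X P hXn h5 h h6 h1 h2
    rw [outA_eM hb ha X, ← vS_card] at h2
    refine locK_aux hG A3 A8 hC hK hb ha (vS X) (vS_sub X) ?_ (vP P) (vP_sub P) (trd X h5) ?_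
      (tr5 P h6) ?_ h2
    · obtain ⟨s, hs⟩ := hXn
      exact ⟨s.1, by rw [mem_vS]; exact ⟨s.2, hs⟩⟩
    · intro s hs C hC hne
      rw [mem_vS] at hs
      obtain ⟨h8, h9⟩ := hs
      rw [mem_vP]
      exact ⟨hC, h _ h9 ⟨C, hC⟩ hne⟩
    · rw [vS_card, vP_card]; exact h1

end

end Pool.Agent.H32.F14
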