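import Pool.Agent.H32.F14.G

set_option autoImplicit false
set_option linter.unusedSectionVars false
set_option linter.unusedVariables false

noncomputable section

open Classical

namespace Pool.Agent.H32.F14

/-- opaque copies of subtypes (so that all decidability is classical) -/
structure TS {V : Type} (S : Finset V) : Type where
  val : V
  prop : val ∈ S

structure TE {V D : Type} (G : DG V D) (S : Finset V) : Type where
  val : D
  p1 : G.att val ∈ S
  p2 : G.att (G.inv val) ∉ S

theorem TS.ext' {V : Type} {S : Finset V} {a b : TS S} (h : a.val = b.val) : a = b := by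
  cases a; cases b; cases h; rfl

theorem TE.ext' {V D : Type} {G : DG V D} {S : Finset V} {a b : TE G S} (h : a.val = b.val) :
    a = b := by
  cases a; cases b; cases h; rfl

def vTS {V : Type} (S : Finset V) : TS S ↪ V := ⟨TS.val, fun _ _ h => TS.ext' h⟩

def vTE {V D : Type} (G : DG V D) (S : Finset V) : TE G S ↪ D := ⟨TE.val, fun _ _ h => TE.ext' h⟩

instance {V : Type} [Fintype V] (S : Finset V) : Fintype (TS S) :=
  Fintype.ofInjective TS.val (vTS S).injective

instance {V D : Type} [Fintype D] (G : DG V D) (S : Finset V) : Fintype (TE G S) :=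
  Fintype.ofInjective TE.val (vTE G S).injective

theorem mem_mapTS {V : Type} {S : Finset V} (A : Finset (TS S)) (v : V) :
    v ∈ A.map (vTS S) ↔ ∃ h : v ∈ S, (⟨v, h⟩ : TS S) ∈ A := by
  rw [Finset.mem_map]
  constructor
  · rintro ⟨s, hs, rfl⟩; exact ⟨s.prop, hs⟩
  · rintro ⟨h, h2⟩; exact ⟨⟨v, h⟩, h2, rfl⟩

theorem mem_mapTE {V D : Type} {G : DG V D} {S : Finset V} (A : Finset (TE G S)) (d : D) :
    d ∈ A.map (vTE G S) ↔ ∃ (h : G.att d ∈ S) (h' : G.att (G.inv d) ∉ S), (⟨d, h, h'⟩ : TE G S) ∈ A := by
  rw [Finset.mem_map]
  constructor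
  · rintro ⟨s, hs, rfl⟩; exact ⟨s.p1, s.p2, hs⟩
  · rintro ⟨h, h', h2⟩; exact ⟨⟨d, h, h'⟩, h2, rfl⟩

theorem card_filter_mapTE {V D : Type} {G : DG V D} {S : Finset V} (F : Finset (TE G S))
    (r : D → Prop) [DecidablePred r] :
    ((F.map (vTE G S)).filter r).card = (F.filter (fun e => r e.val)).card := by
  rw [Finset.filter_map, Finset.card_map]
  rfl

section
variable {V D : Type} [Fintype V] [Fintype D]

theorem g_of_bar (hG1 : StmtG1) (A3 : StmtA3) (A4 : StmtA4) (A5 : StmtA5) (A6 : StmtA6)
    (A7 : StmtA7) (A8 : StmtA8) (hC : StmtC) (hK : StmtK) (hT7 : StmtT7) (hH : StmtH)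
    (hD : StmtD) (G : DG V D) (hG : MinCex G) (S : Finset V) (Q : Finset (Finset V))
    (hb : Bar G S Q) : False := by
  have hL := A3 V D G hG
  obtain ⟨m, hm1, hm2⟩ := hb.mat
  have hcov := hb.cov
  choose! comp hcQ hcm using hcov
  have hcomp : ∀ v, v ∉ S → ∀ C ∈ Q, (comp v = C ↔ v ∈ C) := by
    intro v hv C hC
    constructor
    · intro h; rw [← h]; exact hcm v hv
    · intro h; exact hb.disj _ (hcQ v hv) C hC v (hcm v hv) h
  let a : TE G S → TS S := fun e => ⟨G.att e.val, e.p1⟩
  let q : TE G S → TS Q :=
    fun e => ⟨comp (G.att (G.inv e.val)), hcQ _ e.p2⟩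
  have hdegS : ∀ v : V, G.deg v = 1 ∨ G.deg v = 3 ∨ G.deg v = 5 := hG.deg135
  let ks : TS S → ℕ := fun s => if G.deg s.1 = 5 then 4 else if G.deg s.1 = 3 then 2 else 1
  have hks1 : ∀ s, G.deg s.1 = 1 → ks s = 1 := by intro s h; simp [ks, h]
  have hks3 : ∀ s, G.deg s.1 = 3 → ks s = 2 := by intro s h; simp [ks, h]
  have hks5 : ∀ s, G.deg s.1 = 5 → ks s = 4 := by intro s h; simp [ks, h]
  let u : TS Q → ℕ := fun C => uu G C.1
  let req : TS Q → Prop := fun C => ∀ v, C.1 = {v} → G.deg v ≠ 1
  have hu : ∀ C, u C = 1 ∨ u C = 2 := by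
    intro C
    simp only [u, uu]
    split_ifs <;> simp
  -- counting edges
  have hcount : ∀ (A : Finset (TS S)) (C : TS Q),
      (Finset.univ.filter (fun e => a e ∈ A ∧ q e = C)).card =
        cnt G (A.map (vTS S)) C.1 := by
    intro A C
    unfold cnt
    rw [← Finset.card_map (vTE G S)]
    congr 1
    ext d
    rw [mem_mapTE, Finset.mem_filter, mem_mapTS]
    simp only [Finset.mem_filter, Finset.mem_univ, true_and]
    constructor
    · rintro ⟨h1, h2, h3, h4⟩
      refine ⟨⟨h1, h3⟩, ?_⟩
      have h5 : comp (G.att (G.inv d)) = C.1 := congrArg TS.val h4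
      exact (hcomp _ h2 _ C.2).1 h5
    · rintro ⟨⟨h1, h3⟩, h4⟩
      have h2 : G.att (G.inv d) ∉ S := hb.notS C.1 C.2 _ h4
      refine ⟨h1, h2, h3, ?_⟩
      apply TS.ext'
      exact (hcomp _ h2 _ C.2).2 h4
  have hdeg_s : ∀ s : TS S, (Finset.univ.filter (fun e => a e = s)).card ≤ G.deg s.1 := by
    intro s
    unfold DG.deg DG.darts
    rw [← Finset.card_map (vTE G S)]
    apply Finset.card_le_card
    intro d hd
    simp only [Finset.mem_map, Finset.mem_filter, Finset.mem_univ, true_and] at hd ⊢
    obtain ⟨e, he, rfl⟩ := hd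
    exact congrArg TS.val he
  have key := hH (TS S) (TS Q) (TE G S) a q ks u req
    (by
      intro s
      rcases hdegS s.1 with h | h | h
      · left; exact hks1 s h
      · right; left; exact hks3 s h
      · right; right; exact hks5 s h)
    (by
      intro s
      have h1 := hdeg_s s
      rcases hdegS s.1 with h | h | h
      · rw [hks1 s h]; omega
      · rw [hks3 s h]; omega
      · rw [hks5 s h]; omega)
    hu
    (by
      intro C hC
      simp only [req, not_forall, not_not] at hC
      obtain ⟨v, hv, hv1⟩ := hC
      simp only [u, uu]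
      rw [if_neg]
      rintro ⟨w, hw, hw3⟩
      rw [hv, Finset.singleton_inj] at hw
      rw [← hw, hv1] at hw3
      omega)
    (by
      refine ⟨fun s => ⟨m s.1, by rw [(hm1 s.1 s.2).1]; exact s.2, (hm1 s.1 s.2).2⟩, ?_, ?_⟩
      · intro s
        apply TS.ext'
        exact (hm1 s.1 s.2).1
      · intro s t hst
        apply TS.ext'
        have h1 : comp (G.att (G.inv (m s.1))) = comp (G.att (G.inv (m t.1))) :=
          congrArg TS.val hst
        apply hm2 s.1 s.2 t.1 t.2 (comp (G.att (G.inv (m s.1)))) (hcQ _ (hm1 s.1 s.2).2)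
          (hcm _ (hm1 s.1 s.2).2)
        rw [h1]
        exact hcm _ (hm1 t.1 t.2).2)
  rcases key with ⟨F, f1, f2, f3⟩ | ⟨R, B, dem, b1, b2, b3, b4, b5, b6⟩
  · -- a covering set of edges
    apply hG.nosol
    refine hG1 V D G hL S Q hb (F.map (vTE G S)) ?_ ?_ ?_
    · intro d hd
      rw [mem_mapTE] at hd
      obtain ⟨h1, h2, _⟩ := hd
      exact ⟨h1, h2⟩
    · intro s hs
      rw [card_filter_mapTE]
      have h1 := f1 ⟨s, hs⟩
      have h2 : F.filter (fun e => G.att e.1 = s) = F.filter (fun e => a e = ⟨s, hs⟩) := by
        apply Finset.filter_congr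
        intro e _
        constructor
        · intro h; apply TS.ext'; exact h
        · intro h; exact congrArg TS.val h
      rw [h2]
      rcases hdegS s with h | h | h
      · rw [hks1 ⟨s, hs⟩ h] at h1; omega
      · rw [hks3 ⟨s, hs⟩ h] at h1; omega
      · rw [hks5 ⟨s, hs⟩ h] at h1; omega
    · intro C hC
      rw [card_filter_mapTE]
      have h2 : F.filter (fun e => G.att (G.inv e.1) ∈ C) = F.filter (fun e => q e = ⟨C, hC⟩) := by
        apply Finset.filter_congr
        intro e _
        rw [← hcomp _ e.p2 C hC]
        constructor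
        · intro h; apply TS.ext'; exact h
        · intro h; exact congrArg TS.val h
      rw [h2]
      have h3 := f2 ⟨C, hC⟩
      by_cases h4 : req ⟨C, hC⟩
      · have h5 := f3 _ h4
        by_cases h6 : ∃ v, C = {v} ∧ G.deg v = 3
        · obtain ⟨v, hv, hv3⟩ := h6
          have h7 : u ⟨C, hC⟩ = 2 := by
            simp only [u, uu]
            rw [if_pos ⟨v, hv, hv3⟩]
          rw [h7] at h3
          by_cases h8 : (F.filter (fun e => q e = ⟨C, hC⟩)).card = 1
          · left; exact h8
          · right
            refine ⟨by rw [hv]; simp, ?_⟩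
            intro w hw
            rw [hv, Finset.mem_singleton] at hw
            right
            rw [hw]
            exact ⟨hv3, by omega⟩
        · left
          have h7 : u ⟨C, hC⟩ = 1 := by
            simp only [u, uu]
            rw [if_neg h6]
          omega
      · right
        simp only [req, not_forall, not_not] at h4
        obtain ⟨v, hv, hv1⟩ := h4
        refine ⟨by rw [hv]; simp, ?_⟩
        intro w hw
        rw [hv, Finset.mem_singleton] at hw
        left
        rw [hw]; exact hv1
  · -- the alternating structure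
    let dem' : V → ℕ := fun v => if h : v ∈ S then dem ⟨v, h⟩ else 0
    have hdem' : ∀ s : TS S, dem' s.1 = dem s := by
      intro s
      simp only [dem', dif_pos s.prop]
    have hsum : ∀ A : Finset (TS S),
        ∑ s ∈ A.map (vTS S), dem' s = ∑ s ∈ A, dem s := by
      intro A
      rw [Finset.sum_map]
      apply Finset.sum_congr rfl
      intro s _
      exact hdem' s
    have hsumB : ∀ f : Finset V → ℕ,
        ∑ C ∈ B.map (vTS Q), f C = ∑ C ∈ B, f C.1 := by
      intro f
      rw [Finset.sum_map]
      rfl
    have hback : ∀ A : Finset V, A ⊆ R.map (vTS S) →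
        ∃ A' : Finset (TS S), A' ⊆ R ∧ A'.map (vTS S) = A := by
      intro A hA
      refine ⟨R.filter (fun s => s.1 ∈ A), Finset.filter_subset _ _, ?_⟩
      ext v
      rw [mem_mapTS]
      simp only [Finset.mem_filter]
      constructor
      · rintro ⟨h1, h2, h3⟩; exact h3
      · intro h
        have h2 := hA h
        rw [mem_mapTS] at h2
        obtain ⟨h3, h4⟩ := h2
        exact ⟨h3, h4, h⟩
    have hSs : ∀ A : Finset (TS S), A.map (vTS S) ⊆ S := by
      intro A v hv
      simp only [Finset.mem_map] at hv
      obtain ⟨e, he, rfl⟩ := hv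
      exact e.2
    have ha : Alt G S Q (R.map (vTS S))
        (B.map (vTS Q)) dem' := by
      refine ⟨hSs R, ?_, ?_, ?_, ?_, ?_, ?_, ?_⟩
      · intro C hC
        simp only [Finset.mem_map] at hC
        obtain ⟨e, he, rfl⟩ := hC
        exact e.2
      · intro C hC v hv
        simp only [Finset.mem_map] at hC
        obtain ⟨e, he, rfl⟩ := hC
        exact b1 e he v hv
      · intro C hC d h1 h2
        simp only [Finset.mem_map] at hC ⊢
        obtain ⟨e, he, rfl⟩ := hC
        have h3 : G.att (G.inv d) ∉ S := hb.notS e.1 e.2 _ h2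
        have h4 := b2 ⟨d, h1, h3⟩ (by
          have : q ⟨d, h1, h3⟩ = e := TS.ext' ((hcomp _ h3 _ e.2).2 h2)
          rw [this]; exact he)
        exact ⟨_, h4, rfl⟩
      · intro s hs
        simp only [Finset.mem_map] at hs
        obtain ⟨e, he, rfl⟩ := hs
        have h1 := b3 e he
        have h2 : dem' ((vTS S) e) = dem e := hdem' e
        rw [h2]
        rcases hdegS e.1 with h | h | h
        · exfalso
          rw [hks1 e h] at h1
          have h3 := b5 {e} (by simpa using he) (by simp)
          have h4 : ∑ C ∈ B, min (u C) (Finset.univ.filter (fun x => a x ∈ ({e} : Finset _) ∧ q x = C)).card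
              ≤ (Finset.univ.filter (fun x => a x = e)).card := by
            calc _ ≤ ∑ C ∈ B, (Finset.univ.filter (fun x => a x ∈ ({e} : Finset _) ∧ q x = C)).card :=
                  Finset.sum_le_sum (fun C _ => min_le_right _ _)
              _ = (B.biUnion (fun C => Finset.univ.filter (fun x => a x ∈ ({e} : Finset _) ∧ q x = C))).card := by
                  rw [Finset.card_biUnion]
                  intro C _ C' _ hne
                  rw [Function.onFun, Finset.disjoint_left]
                  intro x hx hx'
                  simp only [Finset.mem_filter, Finset.mem_univ, true_and] at hx hx'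
                  exact hne (hx.2.symm.trans hx'.2)
              _ ≤ _ := by
                  apply Finset.card_le_card
                  intro x hx
                  simp only [Finset.mem_biUnion, Finset.mem_filter, Finset.mem_univ, true_and,
                    Finset.mem_singleton] at hx ⊢
                  obtain ⟨C, _, hx, _⟩ := hx
                  exact hx
          have h5 := hdeg_s e
          rw [Finset.sum_singleton] at h3
          omega
        · have h3 := hks3 e h
          right
          refine ⟨h, ?_⟩
          omega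
        · have h3 := hks5 e h
          left
          refine ⟨h, ?_⟩
          omega
      · rw [Finset.card_map, b4, hsum]
      · intro A hA hAn
        obtain ⟨A', hA', rfl⟩ := hback A hA
        rw [hsum, hsumB]
        have h1 := b5 A' hA' (by simpa using hAn)
        refine h1.trans (le_of_eq ?_)
        apply Finset.sum_congr rfl
        intro C _
        rw [hcount]
      · intro s hs
        simp only [Finset.mem_map] at hs
        obtain ⟨e, he, rfl⟩ := hs
        obtain ⟨A, hA, heA, h1⟩ := b6 e he
        refine ⟨A.map (vTS S), Finset.map_subset_map.2 hA,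
          Finset.mem_map_of_mem _ heA, ?_⟩
        rw [hsum, hsumB]
        refine le_trans (le_of_eq ?_) h1
        apply Finset.sum_congr rfl
        intro C _
        rw [hcount]
    exact alt_false hG A3 A4 A5 A6 A7 A8 hC hK hT7 hD hb ha

end

end Pool.Agent.H32.F14
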