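import Pool.Agent.H32.F14.Base

set_option autoImplicit false
set_option linter.unusedSectionVars false

noncomputable section

open Classical

namespace Pool.Agent.H32.F14

section
variable {V D : Type} [Fintype V] [Fintype D]

/-- A Tutte barrier in dart terms. -/
structure Bar (G : DG V D) (S : Finset V) (Q : Finset (Finset V)) : Prop where
  notS : ∀ C ∈ Q, ∀ v ∈ C, v ∉ S
  cov : ∀ v, v ∉ S → ∃ C ∈ Q, v ∈ C
  disj : ∀ C ∈ Q, ∀ C' ∈ Q, ∀ v, v ∈ C → v ∈ C' → C = C'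
  ne : ∀ C ∈ Q, C.Nonempty
  edge : ∀ C ∈ Q, ∀ d, G.att d ∈ C → G.att (G.inv d) ∈ C ∨ G.att (G.inv d) ∈ S
  crit : ∀ C ∈ Q, ∀ v ∈ C, ∃ M : Finset D, (∀ d ∈ M, G.inv d ∈ M) ∧ (∀ d ∈ M, G.att d ∈ C) ∧
     ∀ u ∈ C, (M.filter (fun d => G.att d = u)).card = if u = v then 0 else 1
  mat : ∃ m : V → D, (∀ s ∈ S, G.att (m s) = s ∧ G.att (G.inv (m s)) ∉ S) ∧
     ∀ s ∈ S, ∀ t ∈ S, ∀ C ∈ Q, G.att (G.inv (m s)) ∈ C → G.att (G.inv (m t)) ∈ C → s = t

end

/-- G0 : barriers exist (from StmtT applied to the simple graph of `G`; A3 no loops, A7 simple). -/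
def StmtG0 : Prop := ∀ (V D : Type) [Fintype V] [Fintype D] (G : DG V D),
  (∀ d, G.att (G.inv d) ≠ G.att d) →
  (∀ d d' : D, G.att d = G.att d' → G.att (G.inv d) = G.att (G.inv d') → d = d') →
  ∃ (S : Finset V) (Q : Finset (Finset V)), Bar G S Q

/-- G1 : a covering set `F` of `S`-`Q` edges (given by their darts at `S`) gives a solution: label
`F`, its partners and, inside each `C` with exactly one `F`-edge, a near perfect matching. -/
def StmtG1 : Prop := ∀ (V D : Type) [Fintype V] [Fintype D] (G : DG V D),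
  (∀ d, G.att (G.inv d) ≠ G.att d) →
  ∀ (S : Finset V) (Q : Finset (Finset V)), Bar G S Q →
  ∀ F : Finset D, (∀ d ∈ F, G.att d ∈ S ∧ G.att (G.inv d) ∉ S) →
  (∀ s ∈ S, (F.filter (fun d => G.att d = s)).card = 1 ∨
    (F.filter (fun d => G.att d = s)).card + 1 = G.deg s) →
  (∀ C ∈ Q, (F.filter (fun d => G.att (G.inv d) ∈ C)).card = 1 ∨
    (C.card = 1 ∧ ∀ v ∈ C, G.deg v = 1 ∨
      (G.deg v = 3 ∧ (F.filter (fun d => G.att (G.inv d) ∈ C)).card = 2))) →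
  G.Solvable

end Pool.Agent.H32.F14
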