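import Mathlib

/-!
# MP_39c6f6_co : every 5-regular graph has a {1,4}-factor -- interface

Everything is about *dart graphs*: finite multigraphs given by darts (half-edges).
All decidability is classical.
-/

set_option autoImplicit false

noncomputable section

open Classical

namespace Pool.Agent.H32.F14

/-- A multigraph given by its darts: `att d` is the vertex of the dart `d`, `inv d` is the other
half of its edge. -/
structure DG (V D : Type) where
  att : D → V
  inv : D → D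
  inv_inv : ∀ d, inv (inv d) = d
  inv_ne : ∀ d, inv d ≠ d

section
variable {V D : Type} [Fintype V] [Fintype D]

/-- darts at `v` -/
def DG.darts (G : DG V D) (v : V) : Finset D := Finset.univ.filter (fun d => G.att d = v)

/-- degree of `v` -/
def DG.deg (G : DG V D) (v : V) : ℕ := (G.darts v).card

/-- number of darts at `v` with label `true` -/
def DG.ones (G : DG V D) (f : D → Bool) (v : V) : ℕ :=
  ((G.darts v).filter (fun d => f d = true)).card

/-- all degrees are 1, 3 or 5 -/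
def DG.Odd135 (G : DG V D) : Prop := ∀ v, G.deg v = 1 ∨ G.deg v = 3 ∨ G.deg v = 5

/-- the condition at a vertex: one label `true`, or all but one (always true for leaves) -/
def DG.OkAt (G : DG V D) (f : D → Bool) (v : V) : Prop := G.ones f v = 1 ∨ G.ones f v + 1 = G.deg v

/-- `f` is a solution: a labelling of the edges, with exactly one minority dart at every
vertex of degree 3 or 5. -/
def DG.IsSol (G : DG V D) (f : D → Bool) : Prop :=
  (∀ d, f (G.inv d) = f d) ∧ ∀ v, G.OkAt f v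

def DG.Solvable (G : DG V D) : Prop := ∃ f, G.IsSol f

/-- darts at `K` whose edge leaves `K` -/
def DG.bdry (G : DG V D) (K : Finset V) : Finset D :=
  Finset.univ.filter (fun d => G.att d ∈ K ∧ G.att (G.inv d) ∉ K)

/-- darts at `K` -/
def DG.dartsOn (G : DG V D) (K : Finset V) : Finset D :=
  Finset.univ.filter (fun d => G.att d ∈ K)

/-- `f` is a consistent labelling of the edges meeting `K`, satisfying the vertex conditions on `K`. -/
def DG.ValidOn (G : DG V D) (K : Finset V) (f : D → Bool) : Prop :=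
  (∀ d, G.att d ∈ K → f (G.inv d) = f d) ∧ ∀ v ∈ K, G.OkAt f v

/-- minimal counterexample (the measure is the number of darts) -/
structure MinCex (G : DG V D) : Prop where
  deg135 : G.Odd135
  nosol : ¬ G.Solvable
  min : ∀ (V' D' : Type) [Fintype V'] [Fintype D'] (G' : DG V' D'),
    G'.Odd135 → Fintype.card D' < Fintype.card D → G'.Solvable

/-- no edge inside `Y` -/
def DG.Ind (G : DG V D) (Y : Finset V) : Prop := ∀ d, G.att d ∈ Y → G.att (G.inv d) ∉ Y

/-- `M` is (the set of darts of) a set of edges inside `K` which, together with the single boundary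
dart `b`, covers every vertex of `K` exactly once. -/
def DG.NearPM (G : DG V D) (K : Finset V) (b : D) (M : Finset D) : Prop :=
  (∀ d ∈ M, G.inv d ∈ M) ∧ (∀ d ∈ M, G.att d ∈ K) ∧ b ∉ M ∧
    ∀ v ∈ K, ((insert b M).filter (fun d => G.att d = v)).card = 1

end

/-! ## The main statements -/

/-- MAIN: there is no minimal counterexample. -/
def StmtMain : Prop := ∀ (V D : Type) [Fintype V] [Fintype D] (G : DG V D), ¬ MinCex G

/-! ## Part A0 : tools (helper32 proves these first, file `Base.lean`) -/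

/-- Gluing two partial labellings along the boundary. -/
def StmtGlue : Prop := ∀ (V D : Type) [Fintype V] [Fintype D] (G : DG V D) (K : Finset V)
  (f g : D → Bool), G.ValidOn K f → G.ValidOn Kᶜ g → (∀ b ∈ G.bdry K, f b = g b) → G.Solvable

/-- The gadget lemma: remove `K` from a minimal counterexample, add new vertices `W` with darts `DW`
(`attW`), and reconnect: `π` is a fixed point free involution on (boundary darts of `K`) + `DW`.
A boundary dart `b` of `K` stands for its partner `inv b` outside `K`.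
If fewer darts are added than removed, there is a labelling `f` valid outside `K` and labels `g`
on the new darts, satisfying the conditions at the new vertices, compatible with `π`. -/
def StmtGadget : Prop := ∀ (V D : Type) [Fintype V] [Fintype D] (G : DG V D), MinCex G →
  ∀ (K : Finset V) (W DW : Type) [Fintype W] [Fintype DW] (attW : DW → W),
  (∀ w, (Finset.univ.filter (fun d => attW d = w)).card = 1 ∨
        (Finset.univ.filter (fun d => attW d = w)).card = 3 ∨
        (Finset.univ.filter (fun d => attW d = w)).card = 5) →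
  Fintype.card DW < (G.dartsOn K).card →
  ∀ π : ({b // b ∈ G.bdry K} ⊕ DW) → ({b // b ∈ G.bdry K} ⊕ DW),
  (∀ x, π (π x) = x) → (∀ x, π x ≠ x) →
  ∃ (f : D → Bool) (g : DW → Bool), G.ValidOn Kᶜ f ∧
    (∀ w, (Finset.univ.filter (fun d => attW d = w ∧ g d = true)).card = 1 ∨
      (Finset.univ.filter (fun d => attW d = w ∧ g d = true)).card + 1 =
        (Finset.univ.filter (fun d => attW d = w)).card) ∧
    ∀ x, Sum.elim (fun b : {b // b ∈ G.bdry K} => f b.1) g (π x) =
      Sum.elim (fun b : {b // b ∈ G.bdry K} => f b.1) g x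

/-! ## Part A : reductions of a minimal counterexample -/

/-- A1 connected -/
def StmtA1 : Prop := ∀ (V D : Type) [Fintype V] [Fintype D] (G : DG V D), MinCex G →
  ∀ K : Finset V, K.Nonempty → K ≠ Finset.univ → (G.bdry K).Nonempty

/-- A2 at most one leaf -/
def StmtA2 : Prop := ∀ (V D : Type) [Fintype V] [Fintype D] (G : DG V D), MinCex G →
  ∀ u v : V, G.deg u = 1 → G.deg v = 1 → u = v

/-- A3 no loops -/
def StmtA3 : Prop := ∀ (V D : Type) [Fintype V] [Fintype D] (G : DG V D), MinCex G →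
  ∀ d : D, G.att (G.inv d) ≠ G.att d

/-- A4 edge cuts of size 1 isolate a leaf -/
def StmtA4 : Prop := ∀ (V D : Type) [Fintype V] [Fintype D] (G : DG V D), MinCex G →
  ∀ K : Finset V, (G.bdry K).card = 1 → K.card = 1 ∨ Kᶜ.card = 1

/-- A5 no edge cuts of size 2 -/
def StmtA5 : Prop := ∀ (V D : Type) [Fintype V] [Fintype D] (G : DG V D), MinCex G →
  ∀ K : Finset V, (G.bdry K).card ≠ 2

/-- A6 edge cuts of size 3 isolate a vertex -/
def StmtA6 : Prop := ∀ (V D : Type) [Fintype V] [Fintype D] (G : DG V D), MinCex G →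
  ∀ K : Finset V, (G.bdry K).card = 3 → K.card = 1 ∨ Kᶜ.card = 1

/-- A7 no parallel edges -/
def StmtA7 : Prop := ∀ (V D : Type) [Fintype V] [Fintype D] (G : DG V D), MinCex G →
  ∀ d d' : D, G.att d = G.att d' → G.att (G.inv d) = G.att (G.inv d') → d = d'

/-- A8 critical sets with exactly 5 boundary edges are single vertices -/
def StmtA8 : Prop := ∀ (V D : Type) [Fintype V] [Fintype D] (G : DG V D), MinCex G →
  ∀ K : Finset V, (G.bdry K).card = 5 →
    (∀ b ∈ G.bdry K, ∃ M : Finset D, G.NearPM K b M) → K.card = 1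

/-! ## Bipartite pieces in a minimal counterexample -/

/-- C : all edges of `X` go to `Y`, `|Y| = |X| + 1`. -/
def StmtC : Prop := ∀ (V D : Type) [Fintype V] [Fintype D] (G : DG V D), MinCex G →
  ∀ X Y : Finset V, X.Nonempty → Disjoint X Y → (∀ x ∈ X, G.deg x = 5) → (∀ y ∈ Y, G.deg y = 5) →
  G.Ind Y → (∀ d, G.att d ∈ X → G.att (G.inv d) ∈ Y) → Y.card = X.card + 1 → False

/-- K : all edges of `X` but exactly one go to `Y`, `|Y| = |X| + 1`. -/
def StmtK : Prop := ∀ (V D : Type) [Fintype V] [Fintype D] (G : DG V D), MinCex G →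
  ∀ X Y : Finset V, Disjoint X Y → (∀ x ∈ X, G.deg x = 5) → (∀ y ∈ Y, G.deg y = 5) →
  G.Ind Y → (∃ f, G.att f ∈ X ∧ G.att (G.inv f) ∉ Y ∧
    ∀ d, G.att d ∈ X → d ≠ f → G.att (G.inv d) ∈ Y) → Y.card = X.card + 1 → False

/-- T7 : all edges of `X ∪ {c}` go to `Y`, `c` a 3-vertex, `|Y| = |X| + 2`. -/
def StmtT7 : Prop := ∀ (V D : Type) [Fintype V] [Fintype D] (G : DG V D), MinCex G →
  ∀ (X Y : Finset V) (c : V), Disjoint X Y → c ∉ X → c ∉ Y → G.deg c = 3 →
  (∀ x ∈ X, G.deg x = 5) → (∀ y ∈ Y, G.deg y = 5) → G.Ind Y →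
  (∀ d, G.att d ∈ insert c X → G.att (G.inv d) ∈ Y) → Y.card = X.card + 2 → False

/-! ## Pure graph theory / combinatorics (no minimal counterexample) -/

/-- BM : b-matchings in bipartite multigraphs (edges `E`, ends `a`, `p`): exact degree `d` on the
left, at most `u` on the right. From Hall's theorem (left side: copies of left vertices, and for
every right vertex `c` dummies `deg c - u c`; right side: the edges). -/
def StmtBM : Prop := ∀ (A P E : Type) [Fintype A] [Fintype P] [Fintype E] (a : E → A) (p : E → P)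
  (d : A → ℕ) (u : P → ℕ),
  (∀ X : Finset A, ∑ x ∈ X, d x ≤
    ∑ c, min (u c) (Finset.univ.filter (fun e => a e ∈ X ∧ p e = c)).card) →
  ∃ F : Finset E, (∀ x, (F.filter (fun e => a e = x)).card = d x) ∧
    ∀ c, (F.filter (fun e => p e = c)).card ≤ u c

/-- T : maximal Tutte barriers. Every finite graph has a set `S` and a partition `Q` of the rest
into factor-critical pieces, with no edges between different pieces, and `S` can be matched into
distinct pieces. -/
def StmtT : Prop := ∀ (V : Type) [Fintype V] (H : SimpleGraph V),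
  ∃ (S : Finset V) (Q : Finset (Finset V)),
    (∀ C ∈ Q, ∀ v ∈ C, v ∉ S) ∧
    (∀ v, v ∉ S → ∃ C ∈ Q, v ∈ C) ∧
    (∀ C ∈ Q, ∀ C' ∈ Q, C ≠ C' → Disjoint C C') ∧
    (∀ C ∈ Q, C.Nonempty) ∧
    (∀ C ∈ Q, ∀ v ∈ C, ∀ w, H.Adj v w → w ∈ C ∨ w ∈ S) ∧
    (∀ C ∈ Q, ∀ v ∈ C, ∃ m : V → V,
      ∀ u ∈ C, u ≠ v → m u ∈ C ∧ m u ≠ v ∧ H.Adj u (m u) ∧ m (m u) = u) ∧
    (∃ μ : V → Finset V, (∀ s ∈ S, μ s ∈ Q ∧ ∃ v ∈ μ s, H.Adj s v) ∧
      ∀ s ∈ S, ∀ t ∈ S, μ s = μ t → s = t)

/-- H : the Hungarian part. `S`, `Q` with edges `E`. Allowed degrees in `F`: `1` or `ks s` at `s`,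
at most `u C` at `C`, at least 1 at required `C`. Either such an `F` exists, or there is the
alternating structure `(R, B)` with tight sets. -/
def StmtH : Prop := ∀ (S Q E : Type) [Fintype S] [Fintype Q] [Fintype E] (a : E → S) (q : E → Q)
  (ks : S → ℕ) (u : Q → ℕ) (req : Q → Prop),
  (∀ s, ks s = 1 ∨ ks s = 2 ∨ ks s = 4) →
  (∀ s, (Finset.univ.filter (fun e => a e = s)).card ≤ ks s + 2) →
  (∀ C, u C = 1 ∨ u C = 2) → (∀ C, ¬ req C → u C = 1) →
  (∃ m : S → E, (∀ s, a (m s) = s) ∧ Function.Injective (fun s => q (m s))) →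
  (∃ F : Finset E,
      (∀ s, (F.filter (fun e => a e = s)).card = 1 ∨ (F.filter (fun e => a e = s)).card = ks s) ∧
      (∀ C, (F.filter (fun e => q e = C)).card ≤ u C) ∧
      (∀ C, req C → 1 ≤ (F.filter (fun e => q e = C)).card)) ∨
  (∃ (R : Finset S) (B : Finset Q) (dem : S → ℕ),
      (∀ C ∈ B, req C) ∧ (∀ e, q e ∈ B → a e ∈ R) ∧
      (∀ s ∈ R, (ks s = 4 ∧ (dem s = 1 ∨ dem s = 4)) ∨ (ks s = 2 ∧ dem s = 2) ∨
        (ks s = 1 ∧ dem s = 1)) ∧
      B.card = ∑ s ∈ R, dem s + 1 ∧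
      (∀ A ⊆ R, A.Nonempty → ∑ s ∈ A, dem s + 1 ≤
        ∑ C ∈ B, min (u C) (Finset.univ.filter (fun e => a e ∈ A ∧ q e = C)).card) ∧
      (∀ s ∈ R, ∃ A ⊆ R, s ∈ A ∧
        ∑ C ∈ B, min (u C) (Finset.univ.filter (fun e => a e ∈ A ∧ q e = C)).card ≤
          ∑ s ∈ A, dem s + 2))

/-! ### Part D : the abstract discharging lemma -/

section D
variable {ι β : Type} [Fintype ι] [Fintype β]

/-- number of edges from `A` to `C` -/
def eA (e : ι → β → ℕ) (A : Finset ι) (C : β) : ℕ := ∑ s ∈ A, e s C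

/-- the degree of `C` -/
def dC (e : ι → β → ℕ) (C : β) : ℕ := ∑ s, e s C

/-- capacity of `C` -/
def uC (e : ι → β → ℕ) (C : β) : ℕ := if dC e C = 3 then 2 else 1

/-- the rank function -/
def rA (e : ι → β → ℕ) (A : Finset ι) : ℕ := ∑ C, min (uC e C) (eA e A C)

/-- number of darts of `A` that go to components -/
def outA (e : ι → β → ℕ) (A : Finset ι) : ℕ := ∑ s ∈ A, ∑ C, e s C

end D

/-- D : the discharging lemma (contradiction from the alternating structure). -/
def StmtD : Prop := ∀ (ι β : Type) [Fintype ι] [Fintype β] (e : ι → β → ℕ) (full dem : ι → ℕ),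
  (∀ s, (full s = 5 ∧ (dem s = 1 ∨ dem s = 4)) ∨ (full s = 3 ∧ dem s = 2)) →
  (∀ s, ∑ C, e s C ≤ full s) →
  (∀ C, Odd (dC e C)) → (∀ C, 3 ≤ dC e C) →
  (∀ s C, dC e C ≤ 5 → e s C ≤ 1) →
  Fintype.card β = ∑ s, dem s + 1 →
  (∀ A : Finset ι, A.Nonempty → ∑ s ∈ A, dem s + 1 ≤ rA e A) →
  (∀ s, ∃ A : Finset ι, s ∈ A ∧ rA e A ≤ ∑ s ∈ A, dem s + 2) →
  -- no 2-cut
  (∀ (Z : Finset ι) (P : Finset β), (∀ C ∈ P, ∀ s, s ∉ Z → e s C = 0) → (∀ s ∈ Z, full s = 5) →
    5 * Z.card = ∑ C ∈ P, dC e C + 2 → 5 * Z.card ≤ outA e Z + 1 → False) →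
  -- C
  (∀ (Z : Finset ι) (P : Finset β), (∀ C ∈ P, ∀ s, s ∉ Z → e s C = 0) → (∀ s ∈ Z, full s = 5) →
    (∀ C ∈ P, dC e C = 5) → P.Nonempty → Z.card = P.card + 1 → 5 * Z.card ≤ outA e Z + 1 → False) →
  -- T7
  (∀ (Z : Finset ι) (P : Finset β) (c : β), c ∉ P → (∀ C ∈ insert c P, ∀ s, s ∉ Z → e s C = 0) →
    (∀ s ∈ Z, full s = 5) → (∀ C ∈ P, dC e C = 5) → dC e c = 3 → Z.card = P.card + 2 →
    5 * Z.card ≤ outA e Z + 1 → False) →
  -- C and K for X
  (∀ (X : Finset ι) (P : Finset β), X.Nonempty → (∀ s ∈ X, full s = 5) →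
    (∀ s ∈ X, ∀ C, e s C ≠ 0 → C ∈ P) → (∀ C ∈ P, dC e C = 5) → P.card = X.card + 1 →
    5 * X.card ≤ outA e X + 1 → False) →
  False

/-! ### sub-parts of D : cluster systems -/

section CS
variable {ι β J H : Type} [Fintype ι] [Fintype β] [Fintype J] [Fintype H]

/-- total demand of a set -/
def demA (dem : ι → ℕ) (A : Finset ι) : ℕ := ∑ s ∈ A, dem s

/-- the tight set of the cluster `j`: `Z j` together with its hubs -/
def Aj (Z : J → Finset ι) (X : H → Finset ι) (I : J → Finset H) (j : J) : Finset ι :=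
  Z j ∪ (I j).biUnion X

/-- A cluster system: `ι` is partitioned into clusters `Z j` and hubs `X i`; each cluster has a set
`I j` of hubs; `Z j ∪ hubs` is tight (`rA = dem + 2`, or `rA = dem + 1` and no hubs). -/
structure IsCS (e : ι → β → ℕ) (dem : ι → ℕ) (Z : J → Finset ι) (X : H → Finset ι)
    (I : J → Finset H) (gam : J → ℕ) : Prop where
  Zne : ∀ j, (Z j).Nonempty
  Xne : ∀ i, (X i).Nonempty
  cover : ∀ s, (∃ j, s ∈ Z j) ∨ (∃ i, s ∈ X i)
  ZZ : ∀ j j', j ≠ j' → Disjoint (Z j) (Z j')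
  XX : ∀ i i', i ≠ i' → Disjoint (X i) (X i')
  ZX : ∀ j i, Disjoint (Z j) (X i)
  gam12 : ∀ j, (gam j = 1 ∧ I j = ∅) ∨ gam j = 2
  rAj : ∀ j, rA e (Aj Z X I j) = demA dem (Aj Z X I j) + gam j
  rX : ∀ i, rA e (X i) = demA dem (X i) + 1
  /-- a component of degree ≥ 5 touches at most one hub -/
  excl5 : ∀ i i', i ≠ i' → ∀ C, dC e C ≠ 3 → eA e (X i) C = 0 ∨ eA e (X i') C = 0
  /-- a 3-component is never split (2,1) between two hubs -/
  excl3 : ∀ i i', i ≠ i' → ∀ C, dC e C = 3 → ¬ (eA e (X i) C = 2 ∧ eA e (X i') C = 1)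
  mu2 : ∀ i, 2 ≤ (Finset.univ.filter (fun j => i ∈ I j)).card
  inter1 : ∀ j j', j ≠ j' → (I j ∩ I j').card ≤ 1
  /-- overlap at least 2 -/
  ov2 : ∀ j, ∀ i ∈ I j, 2 ≤
    (Finset.univ.filter (fun C => dC e C ≠ 3 ∧ eA e (X i) C ≠ 0 ∧ eA e (Z j) C ≠ 0)).card +
    (Finset.univ.filter (fun C => dC e C = 3 ∧ eA e (Aj Z X I j) C = 3 ∧ eA e (X i) C ≠ 0 ∧
      eA e (X i) C ≠ 3)).card

/-- beta components of the cluster `j`: 3-components inside `Z j ∪ hubs`, but neither inside `Z j`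
nor inside one hub -/
def beta (e : ι → β → ℕ) (Z : J → Finset ι) (X : H → Finset ι) (I : J → Finset H) (j : J) :
    Finset β :=
  Finset.univ.filter (fun C => dC e C = 3 ∧ eA e (Aj Z X I j) C = 3 ∧ eA e (Z j) C ≠ 3 ∧
    ∀ i ∈ I j, eA e (X i) C ≠ 3)

/-- number of edges of beta components of `j` at the hub `i` -/
def xb (e : ι → β → ℕ) (Z : J → Finset ι) (X : H → Finset ι) (I : J → Finset H) (i : H) (j : J) :
    ℕ := ∑ C ∈ beta e Z X I j, eA e (X i) C

/-- number of edges from `Z j` to the 5+-components touching the hub `i` -/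
def eK (e : ι → β → ℕ) (Z : J → Finset ι) (X : H → Finset ι) (i : H) (j : J) : ℕ :=
  ∑ C ∈ Finset.univ.filter (fun C => dC e C ≠ 3 ∧ eA e (X i) C ≠ 0), eA e (Z j) C

/-- singleton clusters that need the special rule -/
def Sty (e : ι → β → ℕ) (full dem : ι → ℕ) (Z : J → Finset ι) (X : H → Finset ι)
    (I : J → Finset H) (gam : J → ℕ) (j : J) : Prop :=
  (Z j).card = 1 ∧ (∀ s ∈ Z j, full s = 5 ∧ dem s = 1) ∧ 4 ≤ outA e (Z j) ∧ gam j = 2 ∧
    beta e Z X I j = ∅

/-- nine times the mass that the 5+-component `C` may give to the cluster `j` -/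
def allow (e : ι → β → ℕ) (full dem : ι → ℕ) (Z : J → Finset ι) (X : H → Finset ι)
    (I : J → Finset H) (gam : J → ℕ) (j : J) (C : β) : ℕ :=
  if eA e (Z j) C = 0 then 0 else if eA e (Z j) C = dC e C then 9
  else if Sty e full dem Z X I gam j then 3 else min 9 (2 + eA e (Z j) C)

/-- nine times the mass received by the cluster `j` -/
def massJ (e : ι → β → ℕ) (full dem : ι → ℕ) (Z : J → Finset ι) (X : H → Finset ι)
    (I : J → Finset H) (gam : J → ℕ) (j : J) : ℕ :=
  (∑ C ∈ Finset.univ.filter (fun C => dC e C ≠ 3 ∧ ∀ i ∈ I j, eA e (X i) C = 0),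
    allow e full dem Z X I gam j C) +
  3 * ∑ C ∈ Finset.univ.filter (fun C => dC e C = 3), eA e (Z j) C

/-- nine times the mass that `C`, touching the hub `i`, gives to clusters not attached to `i` -/
def red (e : ι → β → ℕ) (full dem : ι → ℕ) (Z : J → Finset ι) (X : H → Finset ι)
    (I : J → Finset H) (gam : J → ℕ) (i : H) (C : β) : ℕ :=
  min 9 (∑ l ∈ Finset.univ.filter (fun l => i ∉ I l), allow e full dem Z X I gam l C)

/-- nine times the mass received by the hub `i` -/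
def massH (e : ι → β → ℕ) (full dem : ι → ℕ) (Z : J → Finset ι) (X : H → Finset ι)
    (I : J → Finset H) (gam : J → ℕ) (i : H) : ℕ :=
  (∑ C ∈ Finset.univ.filter (fun C => dC e C ≠ 3 ∧ eA e (X i) C ≠ 0),
    (9 - red e full dem Z X I gam i C)) +
  3 * ∑ C ∈ Finset.univ.filter (fun C => dC e C = 3), eA e (X i) C

/-- what the cluster `j` needs from the hub `i` -/
def need (e : ι → β → ℕ) (full dem : ι → ℕ) (Z : J → Finset ι) (X : H → Finset ι)
    (I : J → Finset H) (gam : J → ℕ) (i : H) (j : J) : ℕ :=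
  2 * xb e Z X I i j + (if Sty e full dem Z X I gam j then eK e Z X i j - 1
    else if 8 ≤ eK e Z X i j then 2 else 0)

end CS

/-- the basic hypotheses of part D -/
structure DBase {ι β : Type} [Fintype ι] [Fintype β] (e : ι → β → ℕ) (full dem : ι → ℕ) : Prop where
  kind : ∀ s, (full s = 5 ∧ (dem s = 1 ∨ dem s = 4)) ∨ (full s = 3 ∧ dem s = 2)
  le_full : ∀ s, ∑ C, e s C ≤ full s
  odd : ∀ C, Odd (dC e C)
  ge3 : ∀ C, 3 ≤ dC e C
  simple : ∀ s C, dC e C ≤ 5 → e s C ≤ 1

/-- the local lemmas (no 2-cut, C, T7, C+K) as hypotheses -/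
structure DLoc {ι β : Type} [Fintype ι] [Fintype β] (e : ι → β → ℕ) (full dem : ι → ℕ) : Prop where
  cut2 : ∀ (Z : Finset ι) (P : Finset β), (∀ C ∈ P, ∀ s, s ∉ Z → e s C = 0) →
    (∀ s ∈ Z, full s = 5) → 5 * Z.card = ∑ C ∈ P, dC e C + 2 → 5 * Z.card ≤ outA e Z + 1 → False
  locC : ∀ (Z : Finset ι) (P : Finset β), (∀ C ∈ P, ∀ s, s ∉ Z → e s C = 0) →
    (∀ s ∈ Z, full s = 5) → (∀ C ∈ P, dC e C = 5) → P.Nonempty → Z.card = P.card + 1 →
    5 * Z.card ≤ outA e Z + 1 → False
  locT : ∀ (Z : Finset ι) (P : Finset β) (c : β), c ∉ P →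
    (∀ C ∈ insert c P, ∀ s, s ∉ Z → e s C = 0) →
    (∀ s ∈ Z, full s = 5) → (∀ C ∈ P, dC e C = 5) → dC e c = 3 → Z.card = P.card + 2 →
    5 * Z.card ≤ outA e Z + 1 → False
  locK : ∀ (X : Finset ι) (P : Finset β), X.Nonempty → (∀ s ∈ X, full s = 5) →
    (∀ s ∈ X, ∀ C, e s C ≠ 0 → C ∈ P) → (∀ C ∈ P, dC e C = 5) → P.card = X.card + 1 →
    5 * X.card ≤ outA e X + 1 → False

/-- D1 : uncrossing gives a cluster system. -/
def StmtD1 : Prop := ∀ (ι β : Type) [Fintype ι] [Fintype β] (e : ι → β → ℕ) (full dem : ι → ℕ),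
  DBase e full dem →
  (∀ A : Finset ι, A.Nonempty → ∑ s ∈ A, dem s + 1 ≤ rA e A) →
  (∀ s, ∃ A : Finset ι, s ∈ A ∧ rA e A ≤ ∑ s ∈ A, dem s + 2) →
  ∃ (J H : Type) (_ : Fintype J) (_ : Fintype H) (Z : J → Finset ι) (X : H → Finset ι)
    (I : J → Finset H) (gam : J → ℕ), IsCS e dem Z X I gam

/-- D2a : the inequality of a cluster. -/
def StmtD2a : Prop := ∀ (ι β J H : Type) [Fintype ι] [Fintype β] [Fintype J] [Fintype H]
  (e : ι → β → ℕ) (full dem : ι → ℕ) (Z : J → Finset ι) (X : H → Finset ι)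
  (I : J → Finset H) (gam : J → ℕ), DBase e full dem → DLoc e full dem → IsCS e dem Z X I gam →
  ∀ j, massJ e full dem Z X I gam j + ∑ i ∈ I j, (2 + eK e Z X i j) ≤
    9 * demA dem (Z j) + ∑ i ∈ I j, need e full dem Z X I gam i j

/-- D2b : the inequality of a hub. -/
def StmtD2b : Prop := ∀ (ι β J H : Type) [Fintype ι] [Fintype β] [Fintype J] [Fintype H]
  (e : ι → β → ℕ) (full dem : ι → ℕ) (Z : J → Finset ι) (X : H → Finset ι)
  (I : J → Finset H) (gam : J → ℕ), DBase e full dem → DLoc e full dem → IsCS e dem Z X I gam →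
  ∀ i, massH e full dem Z X I gam i +
      ∑ j ∈ Finset.univ.filter (fun j => i ∈ I j), need e full dem Z X I gam i j ≤
    9 * demA dem (X i) + ∑ j ∈ Finset.univ.filter (fun j => i ∈ I j), (2 + eK e Z X i j)

/-- D2d : every component gives away its whole mass. -/
def StmtD2d : Prop := ∀ (ι β J H : Type) [Fintype ι] [Fintype β] [Fintype J] [Fintype H]
  (e : ι → β → ℕ) (full dem : ι → ℕ) (Z : J → Finset ι) (X : H → Finset ι)
  (I : J → Finset H) (gam : J → ℕ), DBase e full dem → IsCS e dem Z X I gam →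
  9 * Fintype.card β ≤ ∑ j, massJ e full dem Z X I gam j + ∑ i, massH e full dem Z X I gam i

/-- D2s : bounds for the special singletons. -/
def StmtD2s : Prop := ∀ (ι β J H : Type) [Fintype ι] [Fintype β] [Fintype J] [Fintype H]
  (e : ι → β → ℕ) (full dem : ι → ℕ) (Z : J → Finset ι) (X : H → Finset ι)
  (I : J → Finset H) (gam : J → ℕ), DBase e full dem → IsCS e dem Z X I gam →
  ∀ j, Sty e full dem Z X I gam j →
    (∀ C, eA e (Z j) C ≤ 3) ∧ (∀ i ∈ I j, 2 ≤ eK e Z X i j ∧ eK e Z X i j ≤ 3) ∧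
    ((Finset.univ.filter (fun C => dC e C ≠ 3 ∧ (∀ i ∈ I j, eA e (X i) C = 0) ∧
        eA e (Z j) C ≠ 0)).card + (I j).card +
      ∑ C ∈ Finset.univ.filter (fun C => dC e C = 3), eA e (Z j) C = 3)

/-! ## Glue statements -/

/-- G : everything together gives StmtMain. -/
def StmtG : Prop := StmtA1 → StmtA2 → StmtA3 → StmtA4 → StmtA5 → StmtA6 → StmtA7 → StmtA8 →
  StmtC → StmtK → StmtT7 → StmtBM → StmtT → StmtH → StmtD → StmtMain

end Pool.Agent.H32.F14
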