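import Pool.Agent.H32.F14.Iface

/-!
# Paper proofs of the parts (MP_39c6f6_co, S08175)

Notation: dart graph `G`, `deg v ∈ {1,3,5}`; labelling with exactly one minority dart at every 3- and
5-vertex. `|∂K|` = number of boundary darts (`bdry`). Everything below is for a minimal counterexample `G`
(`MinCex`), measure = number of darts. Each part may assume the statements named in brackets as hypotheses
(e.g. `theorem c (hA1 : StmtA1) (hA8 : StmtA8) : StmtC`).

## Base (helper32): StmtGlue, StmtGadget, and the corollary `glue_set`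
(file Base.lean): if `f` is ValidOn `Kᶜ`, `ε : Bool`, `FI` a set of darts at `K`, closed under `inv`
(so inside `K`), and at every `v ∈ K` the number of darts `d` at `v` with `d ∈ FI ∨ (d ∈ bdry K ∧ f d = ε)` is
`1` or `deg v - 1`, then contradiction (label inner darts `ε` iff in `FI`).

## A1 [Base] connected. K proper nonempty with no boundary: gadget with W = DW = empty for K and for Kᶜ; glue.
## A2 [Base] two leaves u ≠ v with darts d,e: if inv d = e then {u,v} is closed (K={u,v}; gadget with K, DW empty:
   f valid outside; label the edge anyhow; glue_set).  Otherwise K={u,v}: boundary darts d,e; π swaps them.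
   (conditions at leaves are automatic: ones ∈ {0,1}, deg = 1.)
## A3 [Base] loop d at v. deg 3: third dart a; (a is not a loop) K={v}, boundary {a}; new leaf (DW=Unit) joined to a.
   Label the loop by ¬(label a). deg 5: other darts a,b,c. If two of them form a loop, say a,b: boundary {c}, new leaf,
   both loops labelled ¬(label c). Else boundary {a,b,c}: new 3-vertex (DW = Fin 3 < 5); labels of a,b,c have exactly
   one minority; loop := the majority label. deg 1: impossible.
## A4 [Base] |∂K|=1, both K and Kᶜ with ≥ 2 vertices: both sides have ≥ 2 darts; replace each side by a leaf (DW=Unit);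
   get f (valid on Kᶜ) and g (valid on K); flip g if necessary so that they agree on the cut edge; glue.
## A5 [Base] |∂K|=2, ∂K={a,b}: gadget K with π swapping a,b gives f with f a = f b; same for Kᶜ; flip; glue.
   (K, Kᶜ are nonempty automatically.)
## A6 [Base, A2] |∂K|=3={a,b,c}. Suppose K and Kᶜ both have ≥ 2 vertices, then both have > 3 darts (if exactly 3 darts
   and ≥ 2 vertices they would be three leaves, contradicting A2). For a side let T ⊆ {0,a,b,c} be the set of realised
   patterns up to flip (0 = all equal, a = a is the minority, ...). Closing with (pair a,b joined; leaf at c) shows T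
   contains 0 or c; similarly (0 or a), (0 or b). Closing with a 3-vertex (DW=Fin 3 < number of darts) shows T meets {a,b,c}.
   Hence 0 ∈ T or T ⊇ {a,b,c}, and T ∩ {a,b,c} ≠ ∅. So the T's of both sides always meet; glue after flip.
## A7 [Base, A1, A2, A3, A5] no parallel edges. d ≠ d' from u to v (u≠v by A3). No leaves. K={u,v}.
   * (3,3): third darts a at u, b at v. If inv a = b: K closed, K=univ by A1 and labels (1,0,0) solve (use gadget
     with DW empty + glue_set). Otherwise |∂K|=2, A5.
   * (3,5): third dart a at u; b,c,e at v. If a is joined to one of b,c,e: |∂K| = 2 -> A5 (no loops). Otherwise four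
     boundary darts; π = (a b)(c e). Let x=f a=f b, y=f c=f e. x=y: label the parallel edges x, ¬x. x≠y: both y.
   * (5,5): m ≥ 2 parallel edges in all (m = number of darts at u with partner at v). Let A_u, A_v be the
     remaining darts, |A_u|=|A_v|=5-m ≤ 3, all boundary (no loops). π = a bijection A_u ↔ A_v and its inverse. Labels on
     A_u, A_v agree. Choose labels of the m parallel edges such that u has exactly one minority: possible since m ≥ 2 (if all labels on
     A_u are equal x (or A_u empty): one edge ¬x, others x; if not all equal there is a minority label (one dart) since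
     |A_u| ≤ 3 (for |A_u|=2 choose either): all parallel edges get the majority label.
     v has the same multiset of labels.
## A8 [Base] K with |∂K|=5, NearPM for all boundary darts, and |K| ≥ 2. Then some M is nonempty (it covers another vertex) so
   K has > 5 darts. Replace K by a 5-vertex (DW=Fin 5, π a bijection ∂K ↔ Fin 5). f: exactly one boundary dart b has the minority
   label ε among the five. glue_set with FI = M_b.
## C [Base, A1, A8 (and Hall from Mathlib, or BM)] K=X∪Y. |∂K| = 5|Y|-5|X| = 5 (all boundary darts are at Y). For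
   nonempty Q ⊆ X: |N(Q)| ≥ |Q|+1: 5|Q| ≤ 5|N(Q)|, and |N(Q)|=|Q| would force all darts of N(Q) to go to Q, so Q ∪ N(Q) is
   closed, contradiction with A1 (|N(Q)| < |Y|). So for each boundary dart b at p ∈ Y: matching X → Y\{p}, a bijection;
   gives NearPM. A8 says |K|=1, contradiction.
## K [Base, A1, A3, A7, C, BM] Induct on |X| (choose |X| minimal). y = att f. K = X ∪ Y. Boundary darts: f and six darts o at Y.
   (inv f is not at X: otherwise inv f is a second exceptional dart.)
   (a) for nonempty Q ⊆ X\{y}: |N(Q)| ≥ |Q|+2 (|N(Q)|=|Q|: closed, A1; |N(Q)|=|Q|+1: StmtC for (Q,N(Q))).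
   For p ∈ Y let b(p) = number of boundary darts at p, Σ b = 6. Choose p1 with 1 ≤ b(p1) ≤ 3 (exists as b ≤ 5 and 6 = Σ b) and
   o1 at p1. Gadget: 5-vertex (Fin 5) on the other five boundary darts at Y, and π joins f and o1. Solution: among the
   five exactly one, oj at pj, has the minority label ε. x = f(o1)=f(f).
   x ≠ ε: bijection X → Y\{pj} (Hall: |N(Q)| ≥ |Q|+1 for all nonempty Q ⊆ X, also when y ∈ Q by (a) [Q={y}: |N(y)| = 4]).
   x = ε, pj ≠ p1: bijection X\{y} → Y\{p1,pj} (Hall by (a)). Every vertex has exactly one ε-dart.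
   x = ε, pj = p1 =: p: y gets 4 (f + 3 inner), p gets 4 (o1, oj + 2 inner), all others 1. BM with d(y)=3, others 1;
   u(p)=2, others 1; Σd = |X|+2 = Σu so all are saturated. Condition for Q ⊆ X: d(Q) ≤ |N(Q)| + [e(Q,p) ≥ 2]
   (edges simple). Q not containing y: (a). Q={y}: |N(y)|=4 ≥ 3 (A7). Q = Q'∪{y}, Q' ≠ ∅: need |Q'|+3. |N(Q)| ≥ |Q'|+2; if
   equality then (Q,N(Q)) satisfies the hypotheses of K, so by minimality Q = X (and N(X)=Y), and e(X,p)=5-b(p) ≥ 2.
## T7 [Base, A1, A3, A5, A7, C, K, BM] Write I=X (5-vertices), A=Y, K = I ∪ {c} ∪ A, |A|=|I|+2. 7 boundary darts, all at A.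
   Choose |A| minimal. For P ⊆ I∪{c} let h(P) = |N(P)| - |P∩I| - 2[c∈P]. h is submodular with
   h(P1)+h(P2) = h(P1∪P2)+h(P1∩P2)+#{v ∈ N(P1)∩N(P2), v ∉ N(P1∩P2)}. h(I∪c)=0.
   (a) nonempty P ⊆ I: h(P) ≥ 2 (5|P| ≤ 5|N(P)|; |N|=|P|: closed, A1; |N|=|P|+1: StmtC).
   (b) c ∈ P: h(P) ≥ 0 (|N(P)| ≥ |P∩I|+1 by counting; equality gives a 2-cut, A5), and h(P)=0 only for P=I∪c (minimality).
   (c) every v ∈ A has b(v) ≤ 3 boundary darts: b(v)=5: v has no neighbour in I∪c: |N(I∪c)| < |A|. contradiction with h(I∪c)=0 / (b);
       b(v)=4: one inner neighbour; if it is p ∈ I: h((I∪c)\p) ≤ 0, contradiction (b); if it is c: h(I) ≤ 1, contradiction (a)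
       (I ≠ ∅ since I=∅ means |A|=2 but c has 3 distinct neighbours).
   (d) REALISATION. d : A → ℕ with Σ d = |A| (inner degrees), capacities 1 on I, 2 on c. By BM it is realisable iff for all
       Q ⊆ A, with R = A\Q and P_I = I\N(Q):  d(R) ≥ |P_I| + (2 - min(2,e(Q,c))).
   Gadget for the 7 boundary darts: choose two of them, f6,f7, joined by π; a new 5-vertex (Fin 5) on the other five.
   Solution: exactly one of the five, f*, at a, has the minority label ε; x=f(f6)=f(f7).
   x ≠ ε: need inner degrees d = 1 - [v=a], c covered once (capacity 1): BM: Q: |N_I(Q)|+min(1,e(Q,c)) ≥ d(Q): from (a),(b).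
   x = ε: the boundary ε-darts are f*, f6, f7.
   Case 1: some y has b(y) ≥ 2: f6,f7 at y. If a ≠ y: d = 1 - [v=a] + [v=y] (y total 4). If a = y: d = 1 (y: 3+1 = 4).
      Check (d): e(Q,c) ≥ 2: |R| ≥ |N(P_I)| ≥ |P_I|+2 (or P_I=∅ trivial). e(Q,c)=1: P=P_I∪c has N(P) ⊆ R ∪ {v}, P ≠ I∪c (otherwise the
      vertex v of Q next to c has only one inner neighbour, b(v)=4), so |R|+1 ≥ |P_I|+3, d(R) ≥ |R|-1 ≥ |P_I|+1.
      e(Q,c)=0: P=P_I∪c, N(P) ⊆ R; if P=I∪c then Q=∅ (by (c)) and d(A)=|A|=|I|+2; else |R| ≥ |P_I|+3.
   Case 2: all b(v) ≤ 1: seven distinct boundary vertices, each with 4 inner neighbours. For a boundary vertex y let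
      F_y = {P : c∈P, h(P)=1, e(y,P) ≤ 1} (e(y,P) = number of neighbours of y in P). {c} ∈ F_y. F_y is closed under union: e(y,P1∪P2) ≤ 2 < 4, so
      P1∪P2 ≠ I∪c, so h(P1∪P2),h(P1∩P2) ≥ 1, so equality everywhere and N(P1)∩N(P2) = N(P1∩P2); if y has a neighbour in both
      then it has one in P1∩P2, so it is the same one. Let P_y be the largest element of F_y.
      Fix any boundary vertex y. If there is a boundary vertex a7 ≠ y, a7 ∉ N(P_y): f6 = dart at y, f7 = dart at a7.
      For f* at a ≠ y,a7: d = 1 - [v=a] - [v=a7] + 2[v=y] (y total 1+3=4). Check (d):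
       e(Q,c)≥2: |R| ≥ |P_I|+2 or P_I=∅. d(R) ≥ |R|-2.  e(Q,c)=1: P=P_I∪c ≠ I∪c, N(P) ⊆ R∪{v}, |R| ≥ |P_I|+2; d(R) ≥ |P_I|+1 unless
       y ∉ R, a,a7 ∈ R, |R|=|P_I|+2, then N(P)=R∪{v}, h(P)=1, e(y,P) ≤ 1: P ∈ F_y, so P ⊆ P_y and a7 ∈ N(P_y), contradiction.
       e(Q,c)=0: P=I∪c: Q=∅ fine. Else |R| ≥ |N(P)| ≥ |P_I|+3, d(R) ≥ |P_I|+2 unless y∉R, a,a7∈R, |R|=|P_I|+3, then N(P)=R, h(P)=1,
       e(y,P)=0: again P ∈ F_y, contradiction.
      Otherwise all boundary vertices ≠ y lie in N(P_y). A* = A\N(P_y), P* = I\P_y: |P*|=|A*|+1 and all darts of A* go to P* except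
      possibly the boundary dart of y. y∉A*: A*≠∅: StmtC for (A*,P*). A*=∅: |P*|=1 but y has ≥ 3 neighbours in P*. y ∈ A*: StmtK for (A*,P*).
## BM: Hall (`Finset.all_card_le_biUnion_card_iff_exists_injective`) with left side Σ x, Fin (d x) ⊕ Σ c, Fin (deg c - u c), right side E.
## T: choose S maximising (odd components of H - S) - |S|, then |S|. All components odd; each component factor-critical (Mathlib
   `SimpleGraph.tutte` for C - v: a violator T gives S ∪ {v} ∪ T with the same deficiency and larger, by parity); Hall for S: if A ⊆ S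
   touches fewer than |A| pieces, S\A has larger deficiency.
## H [BM]: F valid if degrees at s ∈ {1, ks s}, deg_F(C) ≤ u C. Choose F valid maximising |{s : ks s = 4, deg_F s = 4}|, then the
   number of covered required C. If some required C0 is uncovered: B = smallest set of C's with C0 ∈ B and (C ∈ B, e ∉ F, q e = C, e' ∈ F,
   a e' = a e ⇒ q e' ∈ B); R = {a e : q e ∈ B}. For C ∈ B there is an alternating path from C0; shifting along it covers C0 and
   uncovers C once. So: every C ∈ B is required and has deg_F ≤ 1 (=1 for C ≠ C0); if s ∈ R then all F-edges at s go to B;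
   a 2-kind vertex s ∈ R has deg_F s = 2 (otherwise raise it and shift). dem = deg_F. |B| = 1+Σ dem.
   (hpos) A ⊆ R nonempty with r(A) = dem(A) [r ≥ dem always, since F shows it]: then every C ∈ B touching A has an F-edge into A; look at the
   first vertex of A on an alternating path: contradiction. (htight) s ∈ R, dem s=1, ks s=4: otherwise BM on the edges into B with demand
   4 at s gives F' on (R,B); F' together with F outside R is valid with one more 4-vertex. dem s = ks s: A={s}: r({s}) ≤ number of edges at s ≤ ks s + 2 (hypothesis).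
-/
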