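import Pool.Agent.H32.F14.Iface

/-!
# Part D : paper proof (purely combinatorial, no graphs)

Data `e : ι → β → ℕ` (number of edges between s and the component C). For A ⊆ ι: r(A)=rA, D(A)=dem(A), γ(A)=r(A)-D(A).
`d(C)` odd ≥ 3; 3-comp: d=3, 5+: d ≥ 5. r_C(A) = min(u_C, e(A,C)), u=2 for 3-comps, 1 for 5+.
r_C is concave in e(A,C), so γ is submodular: γ(A)+γ(B) = γ(A∪B)+γ(A∩B)+(loss), and for DISJOINT A,B:
γ(A∪B) = γ(A)+γ(B)-ov(A,B), ov(A,B) = #{5+ comps touching both} + #{3-comps with (e(A,C),e(B,C)) ∈ {(1,2),(2,1)}}.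

## D1 (uncrossing). γ(A) ≥ 1 for A ≠ ∅, every s in some A with γ(A) ≤ 2.
* 𝒳 = maximal sets X ≠ ∅ with γ(X)=1. Intersecting sets with γ=1 have union with γ=1 (γ(∩) ≥ 1), so 𝒳 is a disjoint family and every
  set with γ ≤ 1 is contained in a member. For X≠X' in 𝒳: γ(X∪X') ≥ 2, so ov(X,X')=0: gives excl5, excl3.
* U0 = ι \ ⋃𝒳. Call ∅ ≠ Z ⊆ U0 tight if γ(Z ∪ ⋃I) ≤ 2 (then =2) for some I ⊆ 𝒳. Every s ∈ U0 is in a tight set: s ∈ A, γ(A) ≤ 2;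
  for X ∈ 𝒳 meeting A: γ(A∪X) ≤ γ(A)+γ(X)-γ(A∩X) ≤ 2+1-1; so A may be assumed to be a union Z ∪ ⋃I, Z = A∩U0.
  Intersecting tight sets have tight union: A∩A' ∩ U0 ≠ ∅ so γ(A∩A') ≥ 2. So the maximal tight sets 𝒵 partition U0.
  For Z ∈ 𝒵 choose I(Z) ⊆ 𝒳 with γ(Z∪⋃I(Z)) = 2 and |I(Z)| minimal.
  |I(Z)∩I(Z')| ≤ 1 for Z≠Z': otherwise A∩A' ⊇ X1∪X2 is not inside one X, so γ(A∩A') ≥ 2 and γ(A∪A') ≤ 2, Z∪Z' tight.
  ov2: for X ∈ I(Z): γ(A\X) ≥ 3 by minimality (A = Z∪⋃I(Z)), so ov(X,A\X) = γ(X)+γ(A\X)-γ(A) ≥ 1+3-2 = 2. The 5+ comps touching X and A\X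
  touch Z (excl5); the 3-comps are those with e(X,C)+e(A\X,C)=3, both ≠ 0.
* μ(X) = #{Z : X ∈ I(Z)}. Hubs H = {X : μ ≥ 2}. Clusters J: (i) Z⁺ = Z ∪ ⋃{X ∈ I(Z) : μ(X)=1}, I(j) = hubs in I(Z), gam = 2;
  (ii) the X ∈ 𝒳 with μ(X)=0, I = ∅, gam = 1.  Aj is unchanged. (In ov2 the merged X's do not touch 5+ comps touching the hub.)

## Counting for a cluster j (D2a). Z=Z_j, I=I_j, γ=gam j. Notation: inner = 5+ comps with e(Z,C)=d(C), u_i of them, Σ_in d = 5u_i+I_n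
(I_n even... only I_n ≥ 0, and I_n is 0 or ≥ 2); u_n = number of the other 5+ comps touching Z and no hub of I; e_i = eK i j; e_3 = Σ_{3-comps} e(Z,C);
3-comps inside A_j not inside one hub: c_α (inside Z) and beta comps of types b1: (z=0; 1,1,1 at three hubs), b2: (z=1; 2 at a hub or 1,1 at
two hubs), b3: (z=2; 1 at a hub)  [(2,1) split of hubs excluded by excl3].
  (U)  u_i+u_n+|I|+2c_α+b3-b1+Σρ' = D(Z)+γ,  where ρ'=z for the 3-comps not inside A_j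
       [from r(A_j) - Σ_{i∈I} r(X_i) = D(Z)+γ-|I|; a 3-comp contributes min(2,z+Σx_i)-Σmin(2,x_i)].
  (Ed) out(Z) = Σ_in d + Σ_{u_n} z + Σ_i e_i + 3c_α+2b3+b2+Σz'.
  Σ_i xb i j = 3b1+2b2+b3.   e_3 - (2c_α+b3-b1+Σρ') = c_α+b1+b2+b3.
* j special (Sty): by D2s, mass = 3·(number of 5+ units)+3·e_3 = 3(3-|I|) and Σ need = Σ(e_i-1); equality. Done.
* j not special: allow ≤ 9 (inner), ≤ 2+z otherwise. So mass ≤ 9u_i+2u_n+Σz+3e_3 and with (U),(Ed)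
  mass+Σ(2+e_i) ≤ 7u_i - Σ_in d + 2D+2γ+out+2(c_α+b1+b2+b3). So it suffices
  (★) 2u_i + 2γ + out + 2c_α ≤ 7D + I_n + 4b1 + 2b2 + sv,   D=D(Z), sv ≥ 0 the savings: Σ_{u_n}(z-7)^+ (allow ≤ 9) and 2 for every e_i ≥ 8.
  - If some s ∈ Z has dem 4 or full 3: with n=|Z|, y=#{dem 4}, q=#{full 3}: D=n+3y+q, out ≤ 5n-2q. Let k=n-u_i; (Ed): 5k ≥ 2q+I_n+...≥0.
    (U): 2c_α ≤ k+3y+q+γ+b1-... so 2u_i+2γ+out+2c_α ≤ 2(n-k)+2γ+5n-2q+k+3y+q+γ+b1 ≤ 7D ... OK since γ ≤ 2 (check: need 6-k-18y-8q ≤ 3b1).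
  - Otherwise D=n, out=5n-o, k=n-u_i and (★) reads 2γ+2c_α ≤ 2k+o+I_n+4b1+2b2+sv; (U): u_n+|I|+2c_α+b3-b1+Σρ'=k+γ;
    (Ed): 5k = I_n+o+Σ_{u_n}z+Σe_i+3c_α+2b3+b2+Σz'.
    γ=2, b1 ≥ 1: then |I| ≥ 3, 2c_α ≤ k-1+b1: fine. From now b1=0.
    γ=2: c_α ≥ 4: k ≥ 2c_α-2 fine. c_α=3: k ≥ 4; k=4: all other units 0, (Ed) gives o+I_n=11. c_α=2: k ≥ 2; k=2: no other units, o+I_n=4 fine;
      k=3: exactly one of u_n,|I|,b3,Σρ' is 1 (b3=1 impossible since |I|=0): u_n=1: z=9-I_n-o, fine with sv; |I|=1: b2 ≥ 1 fine, else e_i=9-I_n-o, fine with sv;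
      Σρ'=1: o+I_n=8. k ≥ 4 fine. c_α=1: k=1: I_n=2: (Ed) leaves 0 edges for the remaining unit (every unit has an edge: if i∈I and b's = 0 then
      e_i ≥ 2 by ov2), contradiction; I_n=0: the other unit takes ≥ 1 of the 2 edges, so o ≤ 1: DLoc.cut2 with P=inner ∪ {c}. k=2: I_n ≥ 2 fine, b2 ≥ 1 fine,
      o ≥ 2 fine, else DLoc.locT. k ≥ 3 fine. c_α=0: k=0: no edges but a unit: contradiction. k=1: b2 ≥ 1 or I_n ≥ 2 or o ≥ 2 fine; else locC with P=inner: P=∅, so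
      n=1, b3=0 by simplicity, so j is special: contradiction. k ≥ 2 fine.
    γ=1 (I=∅, no beta): c_α ≥ 3: k ≥ 2c_α-1. c_α=2: k ≥ 3. c_α=1: k=1: no other units, o+I_n=2 fine; k ≥ 2 fine. c_α=0: k ≥ 1 fine.

## D2s. j special, Z={s}: inner comps: d ≤ 5 excluded by simplicity, d ≥ 7 > 5. No beta. 3-comps have z ≤ 1. (U) gives the last claim
  (the 3-comps: ρ=z). For i ∈ I: no beta, so ov2 gives ≥ 2 comps touching X_i and Z: e_i ≥ 2. Three units, each with at least one edge, at most 5 edges in all: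
  every 5+ comp has z ≤ 3 and e_i ≤ 3.

## D2b (hub i). Let t,c2,c3 = number of 3-comps with e(X_i,C)=1,2,3. massH = 9D+9-6t-12c2-9c3-Σ_C red. So need
  9 + Σ_{j∈J_i} need ≤ Σ_{j∈J_i}(2+e_ij) + Σ_C red + 6t+12c2+9c3,  J_i={j : i∈I_j}, |J_i| ≥ 2.
  A beta comp touching X_i is beta for exactly one j ∈ J_i (inter1, disjointness), so 6t+12c2 ≥ Σ_j 6 xb_ij.
  Per j: special: 2+e-need = 3. xb_ij ≥ 1: 2+e-need+6xb ≥ 7 (xb=1: only one beta comp touches X_i, so e ≥ 1 by ov2). Others: e ≥ 2, ≥ 4 (also when e ≥ 8).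
  If some xb_ij ≥ 1: ≥ 7+3. If |J_i| ≥ 3: ≥ 9. |J_i|=2, no beta: let x = Σred+6t+12c2+9c3; x ≥ 3 fine (6+3). x=0 otherwise: then no 3-comp touches
  X_i, and all edges of N5(X_i) go to X_i or Z_j, j ∈ J_i, so e_1+e_2 = Σ_{N5}d - out(X_i) ≥ 7: |N5| = D(X_i)+1; if all s∈X_i are (5,1):
  = 5+o+I' and o+I' ≤ 1 is excluded by DLoc.locK (P=N5(X_i)); otherwise ≥ 12. Two specials: e ≤ 3 each, contradiction. One special: other e ≥ 4, 3+6. None: ≥ 4+7 (-2 if e≥8, fine).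

## D2d. 3-comps: 3 edges × 3. 5+ comp C touching a hub i (unique): the hub gives 9-red, the clusters l with i ∉ I_l (for them no hub of I_l touches C)
  have Σ allow ≥ red. 5+ comp touching no hub: Σ_l allow ≥ 9: one cluster: allow=9. If some allow=9 fine. ≥ 3 clusters: each ≥ 3. Two clusters: (n,n): 4+d ≥ 9.
  (special, n): 3+2+d-z1 with z1 ≤ 3, and z1 ≤ 1 if d=5 (simplicity): ≥ 9. (special, special): d=z1+z2 ≤ 6 so d=5, z ≤ 1: contradiction.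

## D from D1, D2a, D2b, D2d: add everything; Σ_j Σ_{i∈I_j} = Σ_i Σ_{j∈J_i}. 9|β| ≤ 9 Σ dem < 9|β|.
-/
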